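import Mathlib

-- merged part: Pool.Agent.Work.MP_e522c7_an.Good
section
/-!
A class of `C^k` functions all of whose directional derivatives are bounded by a majorant.
-/

namespace Pool.Agent.Work.MP_e522c7_an

set_option linter.unusedSectionVars false

open Filter Topology MeasureTheory

variable {V : Type} [NormedAddCommGroup V] [NormedSpace ℝ V] [FiniteDimensional ℝ V]

/-- Directional derivative. -/
noncomputable def D (v : V) (f : V → ℝ) : V → ℝ := fun p => fderiv ℝ f p v

/-- `f` is `C^k` and its directional derivatives (along vectors of norm at most one) up to order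
`k` are bounded by `B`. -/
def Good : ℕ → (V → ℝ) → (V → ℝ) → Prop
  | 0, B, f => Continuous f ∧ ∀ p, |f p| ≤ B p
  | k + 1, B, f => Differentiable ℝ f ∧ (∀ p, |f p| ≤ B p) ∧ ∀ v : V, ‖v‖ ≤ 1 → Good k B (D v f)

namespace Good

variable {B B' f g : V → ℝ} {k : ℕ}

lemma bound (h : Good k B f) (p : V) : |f p| ≤ B p := by
  cases k with
  | zero => exact h.2 p
  | succ k => exact h.2.1 p

lemma nonneg (h : Good k B f) (p : V) : 0 ≤ B p := (abs_nonneg _).trans (h.bound p)

lemma continuous (h : Good k B f) : Continuous f := by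
  cases k with
  | zero => exact h.1
  | succ k => exact h.1.continuous

lemma differentiable (h : Good (k + 1) B f) : Differentiable ℝ f := h.1

lemma dir (h : Good (k + 1) B f) {v : V} (hv : ‖v‖ ≤ 1) : Good k B (D v f) := h.2.2 v hv

lemma mono (h : Good k B f) (hB : ∀ p, B p ≤ B' p) : Good k B' f := by
  induction k generalizing f with
  | zero => exact ⟨h.1, fun p => (h.2 p).trans (hB p)⟩
  | succ k ih => exact ⟨h.1, fun p => (h.2.1 p).trans (hB p), fun v hv => ih (h.2.2 v hv)⟩

lemma of_succ (h : Good (k + 1) B f) : Good k B f := by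
  induction k generalizing f with
  | zero => exact ⟨h.continuous, h.bound⟩
  | succ k ih => exact ⟨h.1, h.bound, fun v hv => ih (h.dir hv)⟩

lemma of_le {l : ℕ} (h : Good k B f) (hl : l ≤ k) : Good l B f := by
  induction hl with
  | refl => exact h
  | step _ ih => exact ih h.of_succ

lemma norm_fderiv_le (h : Good (k + 1) B f) (p : V) : ‖fderiv ℝ f p‖ ≤ B p := by
  refine ContinuousLinearMap.opNorm_le_of_unit_norm (h.nonneg p) fun v hv => ?_
  exact (h.dir hv.le).bound p

lemma contDiff (h : Good k B f) : ContDiff ℝ k f := by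
  induction k generalizing f with
  | zero => exact contDiff_zero.mpr h.1
  | succ k ih =>
    rw [Nat.cast_succ, contDiff_succ_iff_fderiv_apply]
    refine ⟨h.1, by simp, fun y => ?_⟩
    by_cases hy : y = 0
    · simp [hy, contDiff_const]
    have hn : 0 < ‖y‖ := norm_pos_iff.mpr hy
    have h1 := ih (h.dir (v := ‖y‖⁻¹ • y) (by rw [norm_smul, norm_inv, norm_norm,
      inv_mul_cancel₀ hn.ne']))
    have e : (fun x => fderiv ℝ f x y) = fun x => ‖y‖ * D (‖y‖⁻¹ • y) f x := by
      funext x; simp only [D, map_smul, smul_eq_mul]; field_simp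
    rw [e]
    exact contDiff_const.mul h1

lemma continuous_fderiv (h : Good (k + 1) B f) : Continuous (fderiv ℝ f) :=
  h.contDiff.continuous_fderiv (by simp)

lemma zero (hB : ∀ p, 0 ≤ B p) : Good k B (fun _ => 0) := by
  induction k with
  | zero => exact ⟨continuous_const, by simpa using hB⟩
  | succ k ih =>
    refine ⟨differentiable_const _, by simpa using hB, fun v _ => ?_⟩
    have : D v (fun _ : V => (0 : ℝ)) = fun _ => 0 := by funext p; simp [D]
    rw [this]; exact ih

lemma add (h1 : Good k B f) (h2 : Good k B' g) :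
    Good k (fun p => B p + B' p) (fun p => f p + g p) := by
  induction k generalizing f g with
  | zero => exact ⟨h1.1.add h2.1, fun p => (abs_add_le _ _).trans (add_le_add (h1.2 p) (h2.2 p))⟩
  | succ k ih =>
    refine ⟨h1.1.add h2.1, fun p => (abs_add_le _ _).trans (add_le_add (h1.bound p) (h2.bound p)),
      fun v hv => ?_⟩
    have : D v (fun p => f p + g p) = fun p => D v f p + D v g p := by
      funext p; simp only [D]; rw [fderiv_fun_add (h1.1 p) (h2.1 p)]; rfl
    rw [this]; exact ih (h1.dir hv) (h2.dir hv)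

lemma const_mul (c : ℝ) (h : Good k B f) : Good k (fun p => |c| * B p) (fun p => c * f p) := by
  induction k generalizing f with
  | zero =>
    exact ⟨continuous_const.mul h.1, fun p => by
      rw [abs_mul]; exact mul_le_mul_of_nonneg_left (h.2 p) (abs_nonneg c)⟩
  | succ k ih =>
    refine ⟨h.1.const_mul c, fun p => by
      rw [abs_mul]; exact mul_le_mul_of_nonneg_left (h.bound p) (abs_nonneg c), fun v hv => ?_⟩
    have : D v (fun p => c * f p) = fun p => c * D v f p := by
      funext p; simp only [D]; rw [fderiv_const_mul (h.1 p)]; rfl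
    rw [this]; exact ih (h.dir hv)

lemma neg (h : Good k B f) : Good k B (fun p => -f p) := by
  have := h.const_mul (-1)
  simpa using this

lemma sub (h1 : Good k B f) (h2 : Good k B' g) :
    Good k (fun p => B p + B' p) (fun p => f p - g p) := by
  have := h1.add h2.neg
  simpa [sub_eq_add_neg] using this

lemma sum {ι : Type} (s : Finset ι) {F : ι → V → ℝ}
    (h : ∀ i ∈ s, Good k B (F i)) :
    Good k (fun p => s.card * B p) (fun p => ∑ i ∈ s, F i p) := by
  classical
  induction s using Finset.induction_on with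
  | empty => simpa using Good.zero (k := k) (B := fun _ : V => (0 : ℝ)) (fun _ => le_rfl)
  | insert i s hi ih =>
    have h1 := (h i (Finset.mem_insert_self i s)).add
      (ih fun j hj => h j (Finset.mem_insert_of_mem hj))
    simp only [Finset.sum_insert hi, Finset.card_insert_of_notMem hi]
    refine h1.mono fun p => le_of_eq ?_
    push_cast; ring

lemma D_mul (h1 : Differentiable ℝ f) (h2 : Differentiable ℝ g) (v : V) :
    D v (fun p => f p * g p) = fun p => f p * D v g p + D v f p * g p := by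
  funext p; simp only [D]; rw [fderiv_fun_mul (h1 p) (h2 p)]
  simp only [add_apply, smul_apply, smul_eq_mul]; ring

lemma mul (h1 : Good k B f) (h2 : Good k B' g) :
    Good k (fun p => 2 ^ k * (B p * B' p)) (fun p => f p * g p) := by
  induction k generalizing f g with
  | zero =>
    refine ⟨h1.1.mul h2.1, fun p => ?_⟩
    simp only [abs_mul, pow_zero, one_mul]
    exact mul_le_mul (h1.2 p) (h2.2 p) (abs_nonneg _) (h1.nonneg p)
  | succ k ih =>
    refine ⟨h1.1.mul h2.1, fun p => ?_, fun v hv => ?_⟩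
    · rw [abs_mul]
      have := mul_le_mul (h1.bound p) (h2.bound p) (abs_nonneg _) (h1.nonneg p)
      have h3 : (1 : ℝ) ≤ 2 ^ (k + 1) := one_le_pow₀ (by norm_num)
      have h4 := mul_nonneg (h1.nonneg p) (h2.nonneg p)
      linarith only [this, h3, h4, mul_nonneg_of_nonpos_of_nonpos (Mathlib.Tactic.Linarith.sub_nonpos_of_le h3) (Mathlib.Tactic.Linarith.sub_nonpos_of_le h4)]
    · rw [D_mul h1.1 h2.1]
      refine ((ih h1.of_succ (h2.dir hv)).add (ih (h1.dir hv) h2.of_succ)).mono fun p => ?_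
      rw [pow_succ]; linarith

lemma comp_clm (h : Good k B f) (Λ : V →L[ℝ] V) (hΛ : ∀ v, ‖Λ v‖ ≤ ‖v‖) :
    Good k (fun p => B (Λ p)) (fun p => f (Λ p)) := by
  induction k generalizing f with
  | zero => exact ⟨h.1.comp Λ.continuous, fun p => h.2 _⟩
  | succ k ih =>
    refine ⟨h.1.comp Λ.differentiable, fun p => h.bound _, fun v hv => ?_⟩
    have : D v (fun p => f (Λ p)) = fun p => D (Λ v) f (Λ p) := by
      funext p; simp only [D]
      rw [show (fun p => f (Λ p)) = f ∘ Λ from rfl, fderiv_comp _ (h.1 _) Λ.differentiableAt]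
      simp
    rw [this]; exact ih (h.dir ((hΛ v).trans hv))

lemma of_iteratedFDeriv (hf : ContDiff ℝ k f)
    (h : ∀ j ≤ k, ∀ p, ‖iteratedFDeriv ℝ j f p‖ ≤ B p) : Good k B f := by
  induction k generalizing f with
  | zero => exact ⟨hf.continuous, fun p => by simpa using h 0 le_rfl p⟩
  | succ k ih =>
    have hf' : ContDiff ℝ k (fderiv ℝ f) := hf.fderiv_right (by simp)
    refine ⟨hf.differentiable (by simp), fun p => by simpa using h 0 (Nat.zero_le _) p,
      fun v hv => ih (hf'.clm_apply contDiff_const) fun j hj p => ?_⟩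
    refine (norm_iteratedFDeriv_clm_apply_const hf'.contDiffAt (by exact_mod_cast hj)).trans ?_
    rw [norm_iteratedFDeriv_fderiv]
    have := h (j + 1) (by omega) p
    have h0 := norm_nonneg (iteratedFDeriv ℝ (j + 1) f p)
    linarith only [this, hv, h0, norm_nonneg v, mul_nonneg_of_nonpos_of_nonpos (Mathlib.Tactic.Linarith.sub_nonpos_of_le hv) (Mathlib.Tactic.Linarith.sub_nonpos_of_le h0)]

lemma of_hasCompactSupport (hf : ContDiff ℝ k f) (hs : HasCompactSupport f) :
    ∃ C : ℝ, 0 ≤ C ∧ Good k ((tsupport f).indicator fun _ => C) f := by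
  have h1 : ∀ j : ℕ, ∃ C : ℝ, j ≤ k → ∀ p, ‖iteratedFDeriv ℝ j f p‖ ≤ C := by
    intro j
    by_cases hj : j ≤ k
    · obtain ⟨C, hC⟩ := (hf.continuous_iteratedFDeriv (by exact_mod_cast hj)).bounded_above_of_compact_support
        (hs.iteratedFDeriv j)
      exact ⟨C, fun _ => hC⟩
    · exact ⟨0, fun h => absurd h hj⟩
  choose C hC using h1
  refine ⟨∑ j ∈ Finset.range (k + 1), |C j|, Finset.sum_nonneg fun _ _ => abs_nonneg _,
    of_iteratedFDeriv hf fun j hj p => ?_⟩
  by_cases hp : p ∈ tsupport f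
  · rw [Set.indicator_of_mem hp]
    refine (hC j hj p).trans ((le_abs_self _).trans ?_)
    exact Finset.single_le_sum (f := fun j => |C j|) (fun _ _ => abs_nonneg _)
      (Finset.mem_range.mpr (by omega))
  · rw [Set.indicator_of_notMem hp]
    have : iteratedFDeriv ℝ j f p = 0 := by
      by_contra hne
      exact hp (support_iteratedFDeriv_subset j hne)
    simp [this]

lemma tsum {c : ℕ → ℝ} (hc : Summable c) (hc0 : ∀ m, 0 ≤ c m) (hB : ∀ p, B p ≤ 1)
    {F : ℕ → V → ℝ} (h : ∀ m, Good k (fun p => c m * B p) (F m)) :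
    Good k (fun p => (∑' m, c m) * B p) (fun p => ∑' m, F m p) := by
  have hbd : ∀ {F : ℕ → V → ℝ}, (∀ m p, |F m p| ≤ c m * B p) →
      ∀ p, |∑' m, F m p| ≤ (∑' m, c m) * B p := by
    intro F h p
    rw [← tsum_mul_right]
    exact tsum_of_norm_bounded (f := fun m => F m p) (hc.mul_right (B p)).hasSum fun m => h m p
  have hle : ∀ m p, c m * B p ≤ c m := fun m p => by
    have := hB p; have := hc0 m; nlinarith
  induction k generalizing F with
  | zero =>
    exact ⟨continuous_tsum (fun m => (h m).1) hc fun m p => ((h m).bound p).trans (hle m p),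
      hbd fun m => (h m).bound⟩
  | succ k ih =>
    have hd : ∀ p, HasFDerivAt (fun p => ∑' m, F m p) (∑' m, fderiv ℝ (F m) p) p :=
      hasFDerivAt_tsum (x₀ := 0) hc (fun m x => ((h m).1 x).hasFDerivAt)
        (fun m p => ((h m).norm_fderiv_le p).trans (hle m p))
        (Summable.of_norm_bounded hc fun m => ((h m).bound 0).trans (hle m 0))
    refine ⟨fun p => (hd p).differentiableAt, hbd fun m => (h m).bound, fun v hv => ?_⟩
    have : D v (fun p => ∑' m, F m p) = fun p => ∑' m, D v (F m) p := by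
      funext p
      simp only [D]
      rw [(hd p).fderiv]
      exact (ContinuousLinearMap.apply ℝ ℝ v).map_tsum
        (Summable.of_norm_bounded hc fun m => ((h m).norm_fderiv_le p).trans (hle m p))
    rw [this]
    exact ih fun m => (h m).dir hv

end Good

section Average

variable [MeasurableSpace V] [BorelSpace V] {P : Type} [MeasurableSpace P] {μ : Measure P}

/-- Averaging of translates. -/
noncomputable def avg (μ : Measure P) (κ : P → ℝ) (a : P → V) (f : V → ℝ) : V → ℝ :=
  fun p => ∫ y, κ y * f (p - a y) ∂μ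

/-- Admissibility of the majorant `B` for the averaging operator, with output majorant `B'`. -/
structure Adm (μ : Measure P) (κ : P → ℝ) (a : P → V) (B B' : V → ℝ) : Prop where
  κ_meas : Measurable κ
  a_meas : Measurable a
  dom : ∀ p0 : V, ∃ s ∈ 𝓝 p0, ∃ bound : P → ℝ, Integrable bound μ ∧
    ∀ᵐ y ∂μ, ∀ p ∈ s, |κ y| * B (p - a y) ≤ bound y
  out : ∀ p : V, ∃ bound : P → ℝ, Integrable bound μ ∧
    (∀ᵐ y ∂μ, |κ y| * B (p - a y) ≤ bound y) ∧ ∫ y, bound y ∂μ ≤ B' p

variable {κ : P → ℝ} {a : P → V} {B B' f g : V → ℝ} {k : ℕ}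

lemma Adm.meas (h : Adm μ κ a B B') (hf : Continuous f) (p : V) :
    AEStronglyMeasurable (fun y => κ y * f (p - a y)) μ :=
  (h.κ_meas.mul (hf.measurable.comp (measurable_const.sub h.a_meas))).aestronglyMeasurable

lemma Adm.integrable (h : Adm μ κ a B B') (hf : Good k B f) (p : V) :
    Integrable (fun y => κ y * f (p - a y)) μ := by
  obtain ⟨bound, hb, hle, -⟩ := h.out p
  refine hb.mono' (h.meas hf.continuous p) (hle.mono fun y hy => le_trans ?_ hy)
  rw [Real.norm_eq_abs, abs_mul]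
  exact mul_le_mul_of_nonneg_left (hf.bound _) (abs_nonneg _)

lemma Adm.abs_avg_le (h : Adm μ κ a B B') (hf : Good k B f) (p : V) :
    |avg μ κ a f p| ≤ B' p := by
  obtain ⟨bound, hb, hle, hI⟩ := h.out p
  refine le_trans (norm_integral_le_of_norm_le (f := fun y => κ y * f (p - a y)) hb
    (hle.mono fun y hy => le_trans ?_ hy)) hI
  rw [Real.norm_eq_abs, abs_mul]
  exact mul_le_mul_of_nonneg_left (hf.bound _) (abs_nonneg _)

lemma Adm.hasFDerivAt (h : Adm μ κ a B B') (hf : Good (k + 1) B f) (p0 : V) :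
    Integrable (fun y => κ y • fderiv ℝ f (p0 - a y)) μ ∧
      HasFDerivAt (avg μ κ a f) (∫ y, κ y • fderiv ℝ f (p0 - a y) ∂μ) p0 := by
  obtain ⟨s, hs, bound, hb, hle⟩ := h.dom p0
  have hm : AEStronglyMeasurable (fun y => κ y • fderiv ℝ f (p0 - a y)) μ := by
    refine h.κ_meas.aestronglyMeasurable.smul ?_
    exact hf.continuous_fderiv.comp_aestronglyMeasurable
      (measurable_const.sub h.a_meas).aestronglyMeasurable
  have hbd : ∀ᵐ y ∂μ, ∀ p ∈ s, ‖κ y • fderiv ℝ f (p - a y)‖ ≤ bound y := by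
    refine hle.mono fun y hy p hp => le_trans ?_ (hy p hp)
    rw [norm_smul, Real.norm_eq_abs]
    exact mul_le_mul_of_nonneg_left (hf.norm_fderiv_le _) (abs_nonneg _)
  refine ⟨hb.mono' hm (hbd.mono fun y hy => hy p0 (mem_of_mem_nhds hs)), ?_⟩
  refine hasFDerivAt_integral_of_dominated_of_fderiv_le
    (F := fun p y => κ y * f (p - a y)) (F' := fun p y => κ y • fderiv ℝ f (p - a y)) hs
    (Eventually.of_forall fun p => h.meas hf.continuous p) (h.integrable hf p0) hm hbd hb
    (Eventually.of_forall fun y p _ => ?_)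
  have h1 : HasFDerivAt (fun p => f (p - a y)) (fderiv ℝ f (p - a y)) p := by
    have := (hf.1 (p - a y)).hasFDerivAt.comp p ((hasFDerivAt_id p).sub_const (a y))
    rw [ContinuousLinearMap.comp_id] at this
    exact this
  exact h1.const_mul (κ y)

lemma Adm.D_avg (h : Adm μ κ a B B') (hf : Good (k + 1) B f) (v : V) :
    D v (avg μ κ a f) = avg μ κ a (D v f) := by
  funext p
  obtain ⟨h1, h2⟩ := h.hasFDerivAt hf p
  simp only [D, avg]
  rw [h2.fderiv, ContinuousLinearMap.integral_apply h1]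
  simp

lemma Adm.good (h : Adm μ κ a B B') (hf : Good k B f) : Good k B' (avg μ κ a f) := by
  induction k generalizing f with
  | zero =>
    refine ⟨continuous_iff_continuousAt.mpr fun p0 => ?_, h.abs_avg_le hf⟩
    obtain ⟨s, hs, bound, hb, hle⟩ := h.dom p0
    refine continuousAt_of_dominated (F := fun p y => κ y * f (p - a y)) (bound := bound)
      (Eventually.of_forall fun p => h.meas hf.continuous p) ?_ hb
      (Eventually.of_forall fun y => ?_)
    · filter_upwards [hs] with p hp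
      refine hle.mono fun y hy => le_trans ?_ (hy p hp)
      rw [Real.norm_eq_abs, abs_mul]
      exact mul_le_mul_of_nonneg_left (hf.bound _) (abs_nonneg _)
    · have := hf.continuous
      fun_prop
  | succ k ih =>
    refine ⟨fun p => (h.hasFDerivAt hf p).2.differentiableAt, h.abs_avg_le hf, fun v hv => ?_⟩
    rw [h.D_avg hf]
    exact ih (hf.dir hv)

lemma Adm.const_mul (h : Adm μ κ a B B') {c : ℝ} (hc : 0 ≤ c) :
    Adm μ κ a (fun p => c * B p) (fun p => c * B' p) := by
  refine ⟨h.κ_meas, h.a_meas, fun p0 => ?_, fun p => ?_⟩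
  · obtain ⟨s, hs, bound, hb, hle⟩ := h.dom p0
    refine ⟨s, hs, fun y => c * bound y, hb.const_mul c, hle.mono fun y hy p hp => ?_⟩
    have := mul_le_mul_of_nonneg_left (hy p hp) hc
    linarith
  · obtain ⟨bound, hb, hle, hI⟩ := h.out p
    refine ⟨fun y => c * bound y, hb.const_mul c, hle.mono fun y hy => ?_, ?_⟩
    · have := mul_le_mul_of_nonneg_left hy hc
      linarith
    · rw [integral_const_mul]; exact mul_le_mul_of_nonneg_left hI hc

lemma avg_add {l : ℕ} {B1 B1' : V → ℝ} (h : Adm μ κ a B B') (h' : Adm μ κ a B1 B1')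
    (hf : Good k B f) (hg : Good l B1 g) :
    avg μ κ a (fun p => f p + g p) = fun p => avg μ κ a f p + avg μ κ a g p := by
  funext p
  simp only [avg, mul_add]
  exact integral_add (h.integrable hf p) (h'.integrable hg p)

lemma avg_sub {l : ℕ} {B1 B1' : V → ℝ} (h : Adm μ κ a B B') (h' : Adm μ κ a B1 B1')
    (hf : Good k B f) (hg : Good l B1 g) :
    avg μ κ a (fun p => f p - g p) = fun p => avg μ κ a f p - avg μ κ a g p := by
  funext p
  simp only [avg, mul_sub]
  exact integral_sub (h.integrable hf p) (h'.integrable hg p)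

end Average

end Pool.Agent.Work.MP_e522c7_an
end

-- merged part: Pool.Agent.Work.MP_e522c7_an.Gauss
section
/-!
Gaussian kernels on `ℝ³` and the anisotropic Gaussian majorant.
-/

namespace Pool.Agent.Work.MP_e522c7_an

open Filter Topology MeasureTheory Real

/-- Three-dimensional Euclidean space. -/
abbrev E : Type := EuclideanSpace ℝ (Fin 3)

/-- Space-time. -/
abbrev ST : Type := ℝ × E

/-- One-dimensional Gaussian. -/
noncomputable def gam (a y : ℝ) : ℝ := (√a)⁻¹ * exp (-y ^ 2 / (4 * a))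

/-- One-dimensional heat kernel. -/
noncomputable def hk (b y : ℝ) : ℝ := (√(4 * π))⁻¹ * gam b y

lemma gam_pos {a : ℝ} (ha : 0 < a) (y : ℝ) : 0 < gam a y := by unfold gam; positivity

lemma gam_nonneg (a y : ℝ) : 0 ≤ gam a y := by unfold gam; positivity

lemma hk_nonneg (a y : ℝ) : 0 ≤ hk a y := by unfold hk gam; positivity

lemma continuous_gam (a : ℝ) : Continuous (gam a) := by unfold gam; fun_prop

lemma continuous_hk (a : ℝ) : Continuous (hk a) := by unfold hk gam; fun_prop

lemma gam_le {a : ℝ} (ha : 0 < a) (y : ℝ) : gam a y ≤ (√a)⁻¹ := by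
  unfold gam
  have : exp (-y ^ 2 / (4 * a)) ≤ 1 := by
    rw [exp_le_one_iff]
    exact div_nonpos_of_nonpos_of_nonneg (by linarith only [sq_nonneg y, sq_nonneg y]) (by positivity)
  have h0 : 0 ≤ (√a)⁻¹ := by positivity
  linarith only [this, h0, mul_nonneg_of_nonpos_of_nonpos (Mathlib.Tactic.Linarith.sub_nonpos_of_le this) (Mathlib.Tactic.Linarith.sub_nonpos_of_le h0)]

lemma integrable_gam {a : ℝ} (ha : 0 < a) : Integrable (gam a) := by
  have := (integrable_exp_neg_mul_sq (b := 1 / (4 * a)) (by positivity)).const_mul (√a)⁻¹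
  refine this.congr (Eventually.of_forall fun y => ?_)
  simp only [gam]; congr 2; ring

lemma integrable_sq_mul_gam {a : ℝ} (ha : 0 < a) : Integrable (fun y => y ^ 2 * gam a y) := by
  have := (integrable_rpow_mul_exp_neg_mul_sq (b := 1 / (4 * a)) (s := 2) (by positivity)
    (by norm_num)).const_mul (√a)⁻¹
  refine this.congr (Eventually.of_forall fun y => ?_)
  simp only [gam, rpow_two]
  rw [show -(1 / (4 * a)) * y ^ 2 = -y ^ 2 / (4 * a) by ring]; ring

lemma integral_gam {a : ℝ} (ha : 0 < a) : ∫ y, gam a y = √(4 * π) := by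
  have h := integral_gaussian (1 / (4 * a))
  have e : (fun y => gam a y) = fun y => (√a)⁻¹ * exp (-(1 / (4 * a)) * y ^ 2) := by
    funext y; simp only [gam]; congr 2; ring
  rw [e, integral_const_mul, h, show π / (1 / (4 * a)) = a * (4 * π) by field_simp,
    sqrt_mul ha.le]
  have : 0 < √a := sqrt_pos.mpr ha
  field_simp

lemma integrable_hk {a : ℝ} (ha : 0 < a) : Integrable (hk a) := (integrable_gam ha).const_mul _

lemma integral_hk {a : ℝ} (ha : 0 < a) : ∫ y, hk a y = 1 := by
  unfold hk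
  rw [integral_const_mul, integral_gam ha, inv_mul_cancel₀]
  have := pi_pos
  positivity

lemma semigroup1 {a b : ℝ} (ha : 0 < a) (hb : 0 < b) (r y : ℝ) :
    ∫ z, hk b z * gam a (y - r * z) = gam (a + b * r ^ 2) y := by
  have hc : 0 < a + b * r ^ 2 := by positivity
  set c := a + b * r ^ 2 with hcdef
  have e : (fun z => hk b z * gam a (y - r * z)) = fun z =>
      (gam c y * (√(4 * π))⁻¹) * gam (a * b / c) (z - r * y * b / c) := by
    funext z
    simp only [hk, gam]
    have h1 : √(a * b / c) = √a * √b / √c := by rw [sqrt_div (by positivity), sqrt_mul ha.le]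
    have h2 : exp (-z ^ 2 / (4 * b)) * exp (-(y - r * z) ^ 2 / (4 * a)) =
        exp (-y ^ 2 / (4 * c)) * exp (-(z - r * y * b / c) ^ 2 / (4 * (a * b / c))) := by
      rw [← exp_add, ← exp_add]
      congr 1
      field_simp
      rw [hcdef]; ring
    have h3 : 0 < √a := sqrt_pos.mpr ha
    have h4 : 0 < √b := sqrt_pos.mpr hb
    have h5 : 0 < √c := sqrt_pos.mpr hc
    rw [h1]
    calc (√(4 * π))⁻¹ * ((√b)⁻¹ * exp (-z ^ 2 / (4 * b))) * ((√a)⁻¹ * exp (-(y - r * z) ^ 2 / (4 * a)))
        = (√(4 * π))⁻¹ * (√b)⁻¹ * (√a)⁻¹ *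
          (exp (-z ^ 2 / (4 * b)) * exp (-(y - r * z) ^ 2 / (4 * a))) := by ring
      _ = _ := by rw [h2]; field_simp
  rw [e, integral_const_mul, integral_sub_right_eq_self (gam (a * b / c)),
    integral_gam (by positivity), mul_assoc, inv_mul_cancel₀, mul_one]
  have := pi_pos
  positivity

lemma integral_prod3 (f : Fin 3 → ℝ → ℝ) : ∫ x : E, ∏ i, f i (x i) = ∏ i, ∫ y, f i y := by
  rw [← (PiLp.volume_preserving_toLp (Fin 3)).integral_comp
    (MeasurableEquiv.toLp 2 _).measurableEmbedding]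
  exact integral_fintype_prod_volume_eq_prod f

lemma integrable_prod3 {f : Fin 3 → ℝ → ℝ} (hf : ∀ i, Integrable (f i)) :
    Integrable (fun x : E => ∏ i, f i (x i)) := by
  rw [← (PiLp.volume_preserving_toLp (Fin 3)).integrable_comp_emb
    (MeasurableEquiv.toLp 2 _).measurableEmbedding]
  exact Integrable.fintype_prod hf

/-- Anisotropic Gaussian. -/
noncomputable def gam3 (a : Fin 3 → ℝ) (x : E) : ℝ := ∏ i, gam (a i) (x i)

/-- Heat kernel on `ℝ³`. -/
noncomputable def HK (b : ℝ) (z : E) : ℝ := ∏ i, hk b (z i)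

lemma gam3_nonneg (a : Fin 3 → ℝ) (x : E) : 0 ≤ gam3 a x :=
  Finset.prod_nonneg fun _ _ => gam_nonneg _ _

lemma HK_nonneg (b : ℝ) (x : E) : 0 ≤ HK b x :=
  Finset.prod_nonneg fun _ _ => hk_nonneg _ _

lemma continuous_gam3 (a : Fin 3 → ℝ) : Continuous (gam3 a) := by
  unfold gam3 gam; fun_prop

lemma continuous_HK (b : ℝ) : Continuous (HK b) := by
  unfold HK hk gam; fun_prop

lemma integrable_HK {b : ℝ} (hb : 0 < b) : Integrable (HK b) :=
  integrable_prod3 (f := fun _ => hk b) fun _ => integrable_hk hb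

lemma integral_HK {b : ℝ} (hb : 0 < b) : ∫ z, HK b z = 1 := by
  unfold HK
  rw [integral_prod3 (f := fun _ => hk b)]
  simp [integral_hk hb]

lemma integrable_gam3 {a : Fin 3 → ℝ} (ha : ∀ i, 0 < a i) : Integrable (gam3 a) :=
  integrable_prod3 (f := fun i => gam (a i)) fun i => integrable_gam (ha i)

lemma integral_gam3 {a : Fin 3 → ℝ} (ha : ∀ i, 0 < a i) : ∫ z, gam3 a z = √(4 * π) ^ 3 := by
  unfold gam3
  rw [integral_prod3 (f := fun i => gam (a i))]
  simp [integral_gam (ha _)]

lemma norm_sq_E (x : E) : ‖x‖ ^ 2 = x 0 ^ 2 + x 1 ^ 2 + x 2 ^ 2 := by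
  rw [EuclideanSpace.real_norm_sq_eq, Fin.sum_univ_three]

lemma integrable_sq_mul_gam3 {a : Fin 3 → ℝ} (ha : ∀ i, 0 < a i) :
    Integrable (fun x : E => ‖x‖ ^ 2 * gam3 a x) := by
  have h0 := integrable_prod3 (f := ![fun y => y ^ 2 * gam (a 0) y, gam (a 1), gam (a 2)])
    (fun i => by
      fin_cases i
      exacts [integrable_sq_mul_gam (ha 0), integrable_gam (ha 1), integrable_gam (ha 2)])
  have h1 := integrable_prod3 (f := ![gam (a 0), fun y => y ^ 2 * gam (a 1) y, gam (a 2)])
    (fun i => by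
      fin_cases i
      exacts [integrable_gam (ha 0), integrable_sq_mul_gam (ha 1), integrable_gam (ha 2)])
  have h2 := integrable_prod3 (f := ![gam (a 0), gam (a 1), fun y => y ^ 2 * gam (a 2) y])
    (fun i => by
      fin_cases i
      exacts [integrable_gam (ha 0), integrable_gam (ha 1), integrable_sq_mul_gam (ha 2)])
  refine ((h0.add h1).add h2).congr (Eventually.of_forall fun x => ?_)
  simp only [Pi.add_apply, Fin.prod_univ_three, gam3, norm_sq_E]
  simp
  ring

lemma semigroup3 {a : Fin 3 → ℝ} {b : ℝ} (ha : ∀ i, 0 < a i) (hb : 0 < b) (r : ℝ) (x : E) :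
    ∫ z, HK b z * gam3 a (x - r • z) = gam3 (fun i => a i + b * r ^ 2) x := by
  have e : (fun z : E => HK b z * gam3 a (x - r • z)) =
      fun z : E => ∏ i, (fun i y => hk b y * gam (a i) (x i - r * y)) i (z i) := by
    funext z
    simp only [HK, gam3, ← Finset.prod_mul_distrib]
    rfl
  rw [e, integral_prod3 (fun i y => hk b y * gam (a i) (x i - r * y))]
  simp only [semigroup1 (ha _) hb, gam3]

lemma gam3_le {a : Fin 3 → ℝ} (ha : ∀ i, 0 < a i) (x : E) : gam3 a x ≤ ∏ i, (√(a i))⁻¹ :=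
  Finset.prod_le_prod (fun _ _ => gam_nonneg _ _) fun i _ => gam_le (ha i) _

lemma integrable_HK_mul {b : ℝ} (hb : 0 < b) {h : E → ℝ} (hh : Continuous h) {C : ℝ}
    (hC : ∀ z, |h z| ≤ C) : Integrable (fun z => HK b z * h z) :=
  (integrable_HK hb).mul_bdd hh.aestronglyMeasurable (Eventually.of_forall hC)

lemma gam3_const {b : ℝ} (x : E) :
    gam3 (fun _ => b) x = (√b)⁻¹ ^ 3 * exp (-‖x‖ ^ 2 / (4 * b)) := by
  simp only [gam3, gam, Fin.prod_univ_three, norm_sq_E]
  rw [show -(x 0 ^ 2 + x 1 ^ 2 + x 2 ^ 2) / (4 * b) =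
    -x 0 ^ 2 / (4 * b) + -x 1 ^ 2 / (4 * b) + -x 2 ^ 2 / (4 * b) by ring, exp_add, exp_add]
  ring

lemma HK_eq (b : ℝ) (x : E) :
    HK b x = (√(4 * π))⁻¹ ^ 3 * ((√b)⁻¹ ^ 3 * exp (-‖x‖ ^ 2 / (4 * b))) := by
  rw [← gam3_const]
  simp only [HK, hk, gam3, Fin.prod_univ_three]
  ring

lemma HK_one_le (z : E) {s : ℝ} (hs : s ^ 2 ≤ 1 + ‖z‖ ^ 2) : HK 1 z * |s| ≤ 9 * HK 2 z := by
  rw [HK_eq, HK_eq]
  have h2 : (√2)⁻¹ ^ 3 ≥ (1 / 3 : ℝ) := by
    have h3 : √2 ≤ 1.42 := by
      rw [sqrt_le_iff]; constructor <;> norm_num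
    have h4 : (0 : ℝ) < √2 := by positivity
    rw [inv_pow, ge_iff_le, one_div, inv_le_inv₀ (by norm_num) (by positivity)]
    calc √2 ^ 3 ≤ 1.42 ^ 3 := pow_le_pow_left₀ h4.le h3 3
      _ ≤ 3 := by norm_num
  have e : exp (-‖z‖ ^ 2 / (4 * 2)) = exp (-‖z‖ ^ 2 / (4 * 1)) * exp (‖z‖ ^ 2 / 8) := by
    rw [← exp_add]; congr 1; ring
  have h5 : |s| ≤ 3 * exp (‖z‖ ^ 2 / 8) := by
    have := add_one_le_exp (‖z‖ ^ 2 / 8)
    have h6 : |s| ^ 2 ≤ 1 + ‖z‖ ^ 2 := by rwa [sq_abs]
    linarith only [this, h6, sq_nonneg (|s| - 2), abs_nonneg s, sq_nonneg ‖z‖, sq_nonneg ‖z‖, sq_nonneg (|s| - (2 : ℝ))]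
  rw [e, sqrt_one, inv_one, one_pow, one_mul]
  have h7 : 0 < exp (-‖z‖ ^ 2 / (4 * 1)) := exp_pos _
  have h8 : 0 < exp (‖z‖ ^ 2 / 8) := exp_pos _
  have h9 : 0 ≤ (√(4 * π))⁻¹ ^ 3 := by positivity
  have : exp (-‖z‖ ^ 2 / (4 * 1)) * |s| ≤
      9 * ((√2)⁻¹ ^ 3 * (exp (-‖z‖ ^ 2 / (4 * 1)) * exp (‖z‖ ^ 2 / 8))) := by
    have h10 := mul_le_mul_of_nonneg_left h5 h7.le
    have h11 := mul_le_mul_of_nonneg_right h2.le (mul_pos h7 h8).le
    linarith only [h10, h11]
  linarith only [this, h9, mul_le_mul_of_nonneg_left this h9]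

lemma coord_sq_le (z : E) (i : Fin 3) : z i ^ 2 ≤ 1 + ‖z‖ ^ 2 := by
  rw [norm_sq_E]
  fin_cases i <;> simp <;> linarith only [sq_nonneg (z 0), sq_nonneg (z 1), sq_nonneg (z 2), sq_nonneg (z.ofLp (2 : Fin (3 : ℕ))), sq_nonneg (z.ofLp (1 : Fin (3 : ℕ))), sq_nonneg (z.ofLp (0 : Fin (3 : ℕ)))]

lemma abs_HK_coord_le (z : E) (i : Fin 3) : |HK 1 z * z i| ≤ 9 * HK 2 z := by
  rw [abs_mul, abs_of_nonneg (HK_nonneg _ _)]
  exact HK_one_le z (coord_sq_le z i)

lemma HK_one_le_two (z : E) : HK 1 z ≤ 9 * HK 2 z := by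
  have := HK_one_le z (s := 1) (by linarith only [sq_nonneg ‖z‖, sq_nonneg ‖z‖])
  simpa using this

lemma integrable_HK_coord_mul (i : Fin 3) {h : E → ℝ} (hh : Continuous h) {C : ℝ}
    (hC : ∀ z, |h z| ≤ C) : Integrable (fun z => HK 1 z * z i * h z) := by
  have h1 : Integrable (fun z : E => HK 1 z * z i) := by
    refine ((integrable_HK two_pos).const_mul 9).mono' ?_
      (Eventually.of_forall fun z => abs_HK_coord_le z i)
    have := continuous_HK 1
    exact Continuous.aestronglyMeasurable (by fun_prop)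
  exact h1.mul_bdd hh.aestronglyMeasurable (Eventually.of_forall hC)

/-- The `i`-th coordinate vector. -/
noncomputable def eE (i : Fin 3) : E := EuclideanSpace.single i 1

lemma hasFDerivAt_HK (z : E) : HasFDerivAt (HK 1) ((-HK 1 z / 2) • innerSL ℝ z) z := by
  have e : HK 1 = fun x : E => (√(4 * π))⁻¹ ^ 3 * exp (-‖x‖ ^ 2 * (1 / 4)) := by
    funext x; rw [HK_eq]; simp [div_eq_mul_inv]
  have h1 : HasFDerivAt (fun x : E => ‖x‖ ^ 2) (2 • innerSL ℝ z) z := by
    simpa using (hasFDerivAt_id z).norm_sq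
  have h2 := ((h1.neg.mul_const (1 / 4 : ℝ)).exp).const_mul ((√(4 * π))⁻¹ ^ 3)
  have e2 : (-HK 1 z / 2) • innerSL ℝ z = ((√(4 * π))⁻¹ ^ 3 • exp (-‖z‖ ^ 2 * (1 / 4)) •
      (1 / 4 : ℝ) • -(2 • (innerSL ℝ) z)) := by
    ext v
    rw [e]
    simp
    ring
  rw [e2, e]
  exact h2

/-- Gaussian integration by parts. -/
lemma stein (i : Fin 3) {h : E → ℝ} (hd : Differentiable ℝ h)
    (hc : Continuous fun z => fderiv ℝ h z (eE i)) {C : ℝ}
    (h1 : ∀ z, |h z| ≤ C) (h2 : ∀ z, |fderiv ℝ h z (eE i)| ≤ C) :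
    ∫ z, HK 1 z * z i * h z = 2 * ∫ z, HK 1 z * fderiv ℝ h z (eE i) := by
  have e : ∀ z : E, fderiv ℝ (HK 1) z (eE i) = -(1 / 2) * (HK 1 z * z i) := by
    intro z
    rw [(hasFDerivAt_HK z).fderiv]
    simp [eE, EuclideanSpace.inner_single_right]
    ring
  have hI := integrable_HK_coord_mul i hd.continuous h1
  have := integral_mul_fderiv_eq_neg_fderiv_mul_of_integrable (μ := volume) (f := HK 1) (g := h)
    (v := eE i) (by
      simp only [e, mul_assoc]
      simp only [mul_assoc] at hI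
      exact hI.const_mul _)
    (integrable_HK_mul one_pos hc h2) (integrable_HK_mul one_pos hd.continuous h1)
    (fun z _ => (hasFDerivAt_HK z).differentiableAt) (fun z _ => hd z)
  rw [this]
  simp only [e, mul_assoc]
  rw [integral_const_mul]
  ring

/-- The variance vector of the majorant. -/
noncomputable def aL (L : ℝ) : Fin 3 → ℝ := ![1, 1, L ^ 2]

/-- The anisotropic Gaussian majorant, vanishing for negative times. -/
noncomputable def W (L : ℝ) (p : ST) : ℝ :=
  if 0 ≤ p.1 then L * gam3 (fun i => aL L i + 2 * p.1) p.2 else 0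

variable {L : ℝ}

lemma aL_ge (hL : 1 ≤ L) (i : Fin 3) : 1 ≤ aL L i := by
  have : 1 ≤ L ^ 2 := by linarith only [hL, mul_nonneg_of_nonpos_of_nonpos (Mathlib.Tactic.Linarith.sub_nonpos_of_le hL) (Mathlib.Tactic.Linarith.sub_nonpos_of_le hL)]
  fin_cases i
  exacts [le_rfl, le_rfl, this]

lemma aL_le (hL : 1 ≤ L) (i : Fin 3) : aL L i ≤ L ^ 2 := by
  have : 1 ≤ L ^ 2 := by linarith only [hL, mul_nonneg_of_nonpos_of_nonpos (Mathlib.Tactic.Linarith.sub_nonpos_of_le hL) (Mathlib.Tactic.Linarith.sub_nonpos_of_le hL)]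
  fin_cases i
  exacts [this, this, le_rfl]

lemma aL_pos (hL : 1 ≤ L) {t : ℝ} (ht : 0 ≤ t) (i : Fin 3) : 0 < aL L i + 2 * t := by
  have := aL_ge hL i; linarith

lemma W_nonneg (hL : 1 ≤ L) (p : ST) : 0 ≤ W L p := by
  unfold W
  split_ifs
  · exact mul_nonneg (by linarith) (gam3_nonneg _ _)
  · exact le_rfl

lemma W_of_neg {p : ST} (h : p.1 < 0) : W L p = 0 := if_neg (not_le.mpr h)

lemma W_le_exp (hL : 1 ≤ L) {t : ℝ} (ht : 0 ≤ t) (x : E) {A : ℝ} (hA : L ^ 2 + 2 * t ≤ A) :
    W L (t, x) ≤ (1 + 2 * t)⁻¹ * exp (-‖x‖ ^ 2 / (4 * A)) := by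
  simp only [W, if_pos ht, gam3, gam, Fin.prod_univ_three, aL, norm_sq_E]
  simp only [Matrix.cons_val_zero, Matrix.cons_val_one, Matrix.cons_val]
  have h1 : 0 < 1 + 2 * t := by linarith
  have hL2 : 1 ≤ L ^ 2 := by linarith only [hL, mul_nonneg_of_nonpos_of_nonpos (Mathlib.Tactic.Linarith.sub_nonpos_of_le hL) (Mathlib.Tactic.Linarith.sub_nonpos_of_le hL)]
  have h2 : 0 < L ^ 2 + 2 * t := by linarith
  have hA0 : 0 < A := by linarith
  have h3 : L * (√(L ^ 2 + 2 * t))⁻¹ ≤ 1 := by
    rw [← div_eq_mul_inv, div_le_one (sqrt_pos.mpr h2)]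
    exact le_sqrt_of_sq_le (by linarith)
  have h4 : (√(1 + 2 * t))⁻¹ * (√(1 + 2 * t))⁻¹ = (1 + 2 * t)⁻¹ := by
    rw [← mul_inv, mul_self_sqrt h1.le]
  have h5 : ∀ (y a : ℝ), 0 < a → a ≤ A → exp (-y ^ 2 / (4 * a)) ≤ exp (-y ^ 2 / (4 * A)) := by
    intro y a ha haA
    rw [exp_le_exp, neg_div, neg_div, neg_le_neg_iff]
    exact div_le_div_of_nonneg_left (sq_nonneg y) (by positivity) (by linarith only [haA])
  have e0 := h5 (x 0) _ h1 (by linarith only [hA, hL2])
  have e1 := h5 (x 1) _ h1 (by linarith only [hA, hL2])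
  have e2 := h5 (x 2) _ h2 hA
  rw [show -(x 0 ^ 2 + x 1 ^ 2 + x 2 ^ 2) / (4 * A) =
    -x 0 ^ 2 / (4 * A) + -x 1 ^ 2 / (4 * A) + -x 2 ^ 2 / (4 * A) by ring, exp_add, exp_add, ← h4]
  calc L * ((√(1 + 2 * t))⁻¹ * exp (-x 0 ^ 2 / (4 * (1 + 2 * t))) *
        ((√(1 + 2 * t))⁻¹ * exp (-x 1 ^ 2 / (4 * (1 + 2 * t)))) *
        ((√(L ^ 2 + 2 * t))⁻¹ * exp (-x 2 ^ 2 / (4 * (L ^ 2 + 2 * t)))))
      = (L * (√(L ^ 2 + 2 * t))⁻¹) * ((√(1 + 2 * t))⁻¹ * (√(1 + 2 * t))⁻¹ *
        (exp (-x 0 ^ 2 / (4 * (1 + 2 * t))) * exp (-x 1 ^ 2 / (4 * (1 + 2 * t))) *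
          exp (-x 2 ^ 2 / (4 * (L ^ 2 + 2 * t))))) := by ring
    _ ≤ 1 * ((√(1 + 2 * t))⁻¹ * (√(1 + 2 * t))⁻¹ *
        (exp (-x 0 ^ 2 / (4 * A)) * exp (-x 1 ^ 2 / (4 * A)) * exp (-x 2 ^ 2 / (4 * A)))) := by
        gcongr
    _ = _ := by ring

lemma W_le_inv (hL : 1 ≤ L) {t : ℝ} (ht : 0 ≤ t) (x : E) : W L (t, x) ≤ (1 + 2 * t)⁻¹ := by
  refine (W_le_exp hL ht x le_rfl).trans ?_
  have h1 : exp (-‖x‖ ^ 2 / (4 * (L ^ 2 + 2 * t))) ≤ 1 := by
    rw [exp_le_one_iff]
    exact div_nonpos_of_nonpos_of_nonneg (by linarith only [sq_nonneg ‖x‖, sq_nonneg ‖x‖]) (by positivity)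
  have h2 : 0 ≤ (1 + 2 * t)⁻¹ := by positivity
  linarith only [h1, h2, mul_nonneg_of_nonpos_of_nonpos (Mathlib.Tactic.Linarith.sub_nonpos_of_le h1) (Mathlib.Tactic.Linarith.sub_nonpos_of_le h2)]

lemma W_le_one (hL : 1 ≤ L) (p : ST) : W L p ≤ 1 := by
  by_cases ht : 0 ≤ p.1
  · exact (W_le_inv hL ht p.2).trans (inv_le_one_of_one_le₀ (by linarith))
  · rw [W_of_neg (not_le.mp ht)]; exact zero_le_one

lemma W_eq {t : ℝ} (ht : 0 ≤ t) :
    (fun x => W L (t, x)) = fun x => L * gam3 (fun i => aL L i + 2 * t) x := by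
  funext x; simp [W, ht]

lemma continuous_W_slice (t : ℝ) : Continuous fun x => W L (t, x) := by
  by_cases ht : 0 ≤ t
  · rw [W_eq ht]; exact continuous_const.mul (continuous_gam3 _)
  · simp [W, ht, continuous_const]

lemma measurable_W : Measurable (W L) := by
  unfold W
  refine Measurable.ite (measurableSet_le measurable_const measurable_fst) ?_ measurable_const
  unfold gam3 gam
  fun_prop

lemma integrable_W (hL : 1 ≤ L) {t : ℝ} (ht : 0 ≤ t) : Integrable fun x => W L (t, x) := by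
  rw [W_eq ht]; exact (integrable_gam3 (aL_pos hL ht)).const_mul _

lemma integral_W (hL : 1 ≤ L) {t : ℝ} (ht : 0 ≤ t) : ∫ x, W L (t, x) = L * √(4 * π) ^ 3 := by
  rw [W_eq ht, integral_const_mul, integral_gam3 (aL_pos hL ht)]

lemma integrable_sq_mul_W (hL : 1 ≤ L) {t : ℝ} (ht : 0 ≤ t) :
    Integrable fun x : E => ‖x‖ ^ 2 * W L (t, x) := by
  refine ((integrable_sq_mul_gam3 (aL_pos hL ht)).const_mul L).congr
    (Eventually.of_forall fun x => ?_)
  simp only [W, if_pos ht]; ring

lemma integrable_HK_W (hL : 1 ≤ L) (t r : ℝ) (x : E) :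
    Integrable fun z => HK 2 z * W L (t, x - r • z) :=
  integrable_HK_mul two_pos ((continuous_W_slice t).comp (by fun_prop)) (C := 1) fun z => by
    rw [abs_of_nonneg (W_nonneg hL _)]; exact W_le_one hL _

lemma semigroup_W (hL : 1 ≤ L) {t : ℝ} (ht : 0 ≤ t) (r : ℝ) (x : E) :
    ∫ z, HK 2 z * W L (t, x - r • z) = W L (t + r ^ 2, x) := by
  have ht' : 0 ≤ t + r ^ 2 := by positivity
  simp only [W, if_pos ht, if_pos ht']
  have e : (fun z => HK 2 z * (L * gam3 (fun i => aL L i + 2 * t) (x - r • z))) =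
      fun z => L * (HK 2 z * gam3 (fun i => aL L i + 2 * t) (x - r • z)) := by
    funext z; ring
  rw [e, integral_const_mul, semigroup3 (aL_pos hL ht) two_pos]
  congr 2
  funext i; ring

end Pool.Agent.Work.MP_e522c7_an
end

-- merged part: Pool.Agent.Work.MP_e522c7_an.Ops
section
/-!
The averaging operators: the Newtonian field `Kop`, and the Duhamel operators `Sop`, `Top`.
-/

namespace Pool.Agent.Work.MP_e522c7_an

open Filter Topology MeasureTheory Real Set

/-- The measure `dr dz` on `(0, ∞) × ℝ³`. -/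
noncomputable def μ0 : Measure (ℝ × E) := (volume.restrict (Ioi 0)).prod volume

/-- Spatial shift. -/
def aK (y : ℝ × E) : ST := (0, y.1 • y.2)

/-- Space-time shift. -/
def aT (y : ℝ × E) : ST := (y.1 ^ 2, y.1 • y.2)

lemma measurable_aK : Measurable aK := by unfold aK; fun_prop

lemma measurable_aT : Measurable aT := by unfold aT; fun_prop

lemma sub_aK (p : ST) (y : ℝ × E) : p - aK y = (p.1, p.2 - y.1 • y.2) := by
  ext <;> simp [aK]

lemma sub_aT (p : ST) (y : ℝ × E) : p - aT y = (p.1 - y.1 ^ 2, p.2 - y.1 • y.2) := rfl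

lemma ae_pos_μ0 : ∀ᵐ y ∂μ0, 0 < y.1 := by
  have h : ∀ᵐ r ∂(volume.restrict (Ioi (0 : ℝ))), 0 < r := ae_restrict_mem measurableSet_Ioi
  exact (Measure.quasiMeasurePreserving_fst (μ := volume.restrict (Ioi (0 : ℝ)))
    (ν := (volume : Measure E))).ae h

lemma integrable_μ0 {F : ℝ × E → ℝ} (hF : Measurable F) (h0 : ∀ r z, 0 < r → 0 ≤ F (r, z))
    (hi : ∀ r, 0 < r → Integrable fun z => F (r, z)) {φ : ℝ → ℝ} (hφ : IntegrableOn φ (Ioi 0))
    (hle : ∀ r, 0 < r → ∫ z, F (r, z) ≤ φ r) :
    Integrable F μ0 ∧ ∫ y, F y ∂μ0 ≤ ∫ r in Ioi 0, φ r := by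
  have hm : AEStronglyMeasurable F μ0 := hF.aestronglyMeasurable
  have hae : ∀ᵐ r ∂(volume.restrict (Ioi (0 : ℝ))), 0 < r := ae_restrict_mem measurableSet_Ioi
  have hI : Integrable F μ0 := by
    unfold μ0 at hm ⊢
    rw [integrable_prod_iff hm]
    refine ⟨hae.mono hi, hφ.mono' hm.norm.integral_prod_right' (hae.mono fun r hr => ?_)⟩
    have e : (fun z => ‖F (r, z)‖) = fun z => F (r, z) := by
      funext z; exact abs_of_nonneg (h0 r z hr)
    rw [e, Real.norm_eq_abs, abs_of_nonneg (integral_nonneg fun z => h0 r z hr)]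
    exact hle r hr
  refine ⟨hI, ?_⟩
  unfold μ0 at hI ⊢
  rw [integral_prod _ hI]
  exact integral_mono_ae hI.integral_prod_left hφ (hae.mono hle)

lemma int_cut (f : ℝ → ℝ) {t : ℝ} (ht : 0 ≤ t) :
    ∫ r in Ioi 0, (if r ^ 2 ≤ t then f r else 0) = ∫ r in (0 : ℝ)..√t, f r := by
  rw [intervalIntegral.integral_of_le (sqrt_nonneg t), ← Ioi_inter_Iic,
    ← setIntegral_indicator measurableSet_Iic]
  refine setIntegral_congr_fun measurableSet_Ioi fun r hr => ?_
  have hr' : (0 : ℝ) < r := hr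
  simp only [indicator, mem_Iic, le_sqrt hr'.le ht]

lemma integrableOn_cut {f : ℝ → ℝ} (hf : Continuous f) (t : ℝ) :
    IntegrableOn (fun r => if r ^ 2 ≤ t then f r else 0) (Ioi 0) := by
  have h1 : IntegrableOn f (Icc 0 (√t)) := hf.continuousOn.integrableOn_Icc
  have h2 : IntegrableOn ((Icc 0 (√t)).indicator f) (Ioi 0) :=
    ((integrable_indicator_iff measurableSet_Icc).mpr h1).integrableOn
  refine h2.congr_fun (fun r hr => ?_) measurableSet_Ioi
  have hr' : (0 : ℝ) < r := hr
  by_cases ht : 0 ≤ t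
  · simp only [indicator, mem_Icc, le_sqrt hr'.le ht, hr'.le, true_and]
  · have h3 : ¬ r ^ 2 ≤ t := by nlinarith [sq_nonneg r]
    have h4 : ¬ r ≤ √t := by rw [sqrt_eq_zero_of_nonpos (by linarith)]; linarith
    simp [indicator, h3, h4]

variable {L : ℝ}

lemma adm_T (hL : 1 ≤ L) {κ : ℝ × E → ℝ} (hκ : Measurable κ) {β α C : ℝ → ℝ} (hβ : Continuous β)
    (hβ0 : ∀ r, 0 < r → 0 ≤ β r) (hκβ : ∀ r z, 0 < r → |κ (r, z)| ≤ β r * HK 2 z)
    (hα : Measurable α) (hα0 : ∀ s, 0 ≤ α s) (hα1 : ∀ s, 0 ≤ s → α s ≤ 1)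
    (hC : ∀ t, 0 ≤ t → ∫ r in Ioi 0, (if r ^ 2 ≤ t then β r * α (t - r ^ 2) else 0) ≤ C t) :
    Adm μ0 κ aT (fun p => α p.1 * W L p) (fun p => C p.1 * W L p) := by
  have hαW : ∀ p : ST, α p.1 * W L p ≤ 1 := by
    intro p
    by_cases hp : 0 ≤ p.1
    · exact mul_le_one₀ (hα1 _ hp) (W_nonneg hL p) (W_le_one hL p)
    · rw [W_of_neg (not_le.mp hp)]; simp
  have hHK := continuous_HK 2
  refine ⟨hκ, measurable_aT, fun p0 => ?_, fun p => ?_⟩
  · refine ⟨{p | p.1 < p0.1 + 1}, (isOpen_lt continuous_fst continuous_const).mem_nhds (by simp),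
      fun y => (if y.1 ^ 2 ≤ p0.1 + 1 then β y.1 else 0) * HK 2 y.2,
      Integrable.mul_prod (integrableOn_cut hβ _) (integrable_HK two_pos), ?_⟩
    filter_upwards [ae_pos_μ0] with y hy p hp
    have hp' : p.1 < p0.1 + 1 := hp
    split_ifs with h
    · calc |κ y| * (α (p - aT y).1 * W L (p - aT y)) ≤ |κ y| * 1 :=
          mul_le_mul_of_nonneg_left (hαW _) (abs_nonneg _)
        _ ≤ _ := by rw [mul_one]; exact hκβ y.1 y.2 hy
    · rw [W_of_neg (by rw [sub_aT]; simp only; linarith)]; simp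
  · set F : ℝ × E → ℝ := fun y =>
      β y.1 * α (p.1 - y.1 ^ 2) * (HK 2 y.2 * W L (p.1 - y.1 ^ 2, p.2 - y.1 • y.2)) with hF
    have hFm : Measurable F := by
      have h1 : Measurable fun y : ℝ × E => W L (p.1 - y.1 ^ 2, p.2 - y.1 • y.2) :=
        measurable_W.comp (by fun_prop)
      have h2 : Measurable fun y : ℝ × E => α (p.1 - y.1 ^ 2) := hα.comp (by fun_prop)
      exact ((hβ.measurable.comp measurable_fst).mul h2).mul
        ((hHK.measurable.comp measurable_snd).mul h1)
    have hint : IntegrableOn (fun r => (if r ^ 2 ≤ p.1 then β r * α (p.1 - r ^ 2) else 0)) (Ioi 0) := by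
      refine (integrableOn_cut hβ p.1).mono' ?_ ?_
      · refine Measurable.aestronglyMeasurable (Measurable.ite ?_ ?_ measurable_const)
        · exact measurableSet_le (by fun_prop) measurable_const
        · exact hβ.measurable.mul (hα.comp (by fun_prop))
      · filter_upwards [ae_restrict_mem measurableSet_Ioi] with r hr
        split_ifs with h
        · rw [Real.norm_eq_abs, abs_of_nonneg (mul_nonneg (hβ0 r hr) (hα0 _))]
          exact mul_le_of_le_one_right (hβ0 r hr) (hα1 _ (by linarith))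
        · simp
    obtain ⟨h1, h2⟩ := integrable_μ0 hFm
      (fun r z hr => mul_nonneg (mul_nonneg (hβ0 r hr) (hα0 _))
        (mul_nonneg (HK_nonneg _ _) (W_nonneg hL _)))
      (fun r _ => (integrable_HK_W hL (p.1 - r ^ 2) r p.2).const_mul (β r * α (p.1 - r ^ 2)))
      (φ := fun r => (if r ^ 2 ≤ p.1 then β r * α (p.1 - r ^ 2) else 0) * W L p)
      (hint.mul_const _) (fun r _ => by
        simp only [hF]
        rw [integral_const_mul]
        split_ifs with h
        · rw [semigroup_W hL (by linarith), sub_add_cancel]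
        · have : ∀ z : E, W L (p.1 - r ^ 2, p.2 - r • z) = 0 := fun z =>
            W_of_neg (by simp only; linarith)
          simp [this])
    refine ⟨F, h1, ?_, h2.trans ?_⟩
    · filter_upwards [ae_pos_μ0] with y hy
      rw [sub_aT]
      have := mul_le_mul_of_nonneg_right (hκβ y.1 y.2 hy)
        (mul_nonneg (hα0 (p.1 - y.1 ^ 2)) (W_nonneg hL (p.1 - y.1 ^ 2, p.2 - y.1 • y.2)))
      simp only [hF]
      linarith
    · rw [integral_mul_const]
      by_cases hp : 0 ≤ p.1
      · exact mul_le_mul_of_nonneg_right (hC _ hp) (W_nonneg hL p)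
      · rw [W_of_neg (not_le.mp hp)]; simp

/-- The decay rate of the drift. -/
noncomputable def om (t : ℝ) : ℝ := (√(1 + 2 * t))⁻¹

lemma om_nonneg (t : ℝ) : 0 ≤ om t := by unfold om; positivity

lemma om_le_one {t : ℝ} (ht : 0 ≤ t) : om t ≤ 1 :=
  inv_le_one_of_one_le₀ (one_le_sqrt.mpr (by linarith))

lemma measurable_om : Measurable om := by unfold om; fun_prop

lemma integrableOn_inv_sq_add {c : ℝ} (hc : 0 < c) :
    IntegrableOn (fun r : ℝ => 2 / (c + r) ^ 2) (Ioi 0) ∧ ∫ r in Ioi 0, 2 / (c + r) ^ 2 = 2 / c := by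
  have hd : ∀ r ∈ Ici (0 : ℝ), HasDerivAt (fun r => -2 / (c + r)) (2 / (c + r) ^ 2) r := by
    intro r hr
    have hr' : (0 : ℝ) ≤ r := hr
    have h1 : c + r ≠ 0 := by positivity
    have := ((hasDerivAt_id r).const_add c).inv h1 |>.const_mul (-2)
    refine HasDerivAt.congr_deriv (f' := -2 * (-1 / (c + id r) ^ 2)) ?_ (by simp; ring)
    simpa [div_eq_mul_inv] using! this
  have ht : Tendsto (fun r : ℝ => -2 / (c + r)) atTop (𝓝 0) :=
    tendsto_const_nhds.div_atTop (tendsto_atTop_add_const_left _ _ tendsto_id)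
  have hi := integrableOn_Ioi_deriv_of_nonneg' hd (fun r _ => by positivity) ht
  refine ⟨hi, ?_⟩
  rw [integral_Ioi_of_hasDerivAt_of_tendsto' hd hi ht]
  simp [neg_div]

lemma W_int_bound (hL : 1 ≤ L) {t : ℝ} (ht : 0 ≤ t) (x : E) {r : ℝ} (hr : 0 < r) :
    W L (t + r ^ 2, x) ≤ 2 / (√(1 + 2 * t) + r) ^ 2 := by
  refine (W_le_inv hL (by positivity) x).trans ?_
  have h1 : √(1 + 2 * t) ^ 2 = 1 + 2 * t := sq_sqrt (by linarith)
  have h2 : 0 < √(1 + 2 * t) := sqrt_pos.mpr (by linarith)
  rw [inv_eq_one_div, div_le_div_iff₀ (by positivity) (by positivity)]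
  linarith only [h1, sq_nonneg (√(1 + 2 * t) - r), sq_nonneg r, sq_nonneg r, sq_nonneg (√((1 : ℝ) + (2 : ℝ) * t) - r)]

lemma adm_K (hL : 1 ≤ L) {κ : ℝ × E → ℝ} (hκ : Measurable κ)
    (hκβ : ∀ r z, |κ (r, z)| ≤ 9 * HK 2 z) :
    Adm μ0 κ aK (W L) (fun p => 18 * om p.1) := by
  have hHK := continuous_HK 2
  refine ⟨hκ, measurable_aK, fun p0 => ?_, fun p => ?_⟩
  · set A := L ^ 2 + 2 * (|p0.1| + 1) with hA
    have hA1 : 1 ≤ A := by have := abs_nonneg p0.1; linarith only [this, sq_nonneg L]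
    set R := ‖p0.2‖ + 1 with hR
    set c := 9 * exp (R ^ 2 / (4 * A)) * √(2 * A) ^ 3 with hc
    set F : ℝ × E → ℝ := fun y => c * (HK 2 y.2 * gam3 (fun _ => 2 * A) (0 - y.1 • y.2)) with hF
    have hg := continuous_gam3 (fun _ => 2 * A)
    have hFm : Measurable F := Continuous.measurable (by fun_prop)
    have hc0 : 0 ≤ c := by positivity
    obtain ⟨h1, -⟩ := integrable_μ0 hFm
      (fun r z _ => mul_nonneg hc0 (mul_nonneg (HK_nonneg _ _) (gam3_nonneg _ _)))
      (fun r _ => (integrable_HK_mul two_pos (h := fun z => gam3 (fun _ => 2 * A) (0 - r • z))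
        (by fun_prop) (C := ∏ _i : Fin 3, (√(2 * A))⁻¹) fun z => by
          rw [abs_of_nonneg (gam3_nonneg _ _)]
          exact gam3_le (fun _ => by positivity) _).const_mul c)
      (φ := fun r => c * (1 + r ^ 2)⁻¹) (integrable_inv_one_add_sq.const_mul c).integrableOn
      (fun r _ => by
        simp only [hF]
        rw [integral_const_mul, semigroup3 (fun _ => by positivity) two_pos]
        refine mul_le_mul_of_nonneg_left ?_ hc0
        rw [gam3_const]
        simp only [norm_zero, ne_eq, OfNat.ofNat_ne_zero, not_false_eq_true, zero_pow, neg_zero,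
          zero_div, exp_zero, mul_one]
        have h2 : 1 ≤ √(2 * A + 2 * r ^ 2) := one_le_sqrt.mpr (by linarith only [hA1, sq_nonneg r, sq_nonneg r])
        have h3 : √(2 * A + 2 * r ^ 2) ^ 2 = 2 * A + 2 * r ^ 2 := sq_sqrt (by positivity)
        rw [inv_pow, inv_le_inv₀ (by positivity) (by positivity), pow_succ _ 2, h3]
        linarith only [hA1, h2, sq_nonneg r, sq_nonneg r, mul_nonneg_of_nonpos_of_nonpos (Mathlib.Tactic.Linarith.sub_nonpos_of_le (sq_nonneg r)) (Mathlib.Tactic.Linarith.sub_nonpos_of_le h2), mul_nonneg_of_nonpos_of_nonpos (Mathlib.Tactic.Linarith.sub_nonpos_of_le hA1) (Mathlib.Tactic.Linarith.sub_nonpos_of_le h2)])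
    refine ⟨Metric.ball p0 1, Metric.ball_mem_nhds _ one_pos, F, h1,
      Eventually.of_forall fun y p hp => ?_⟩
    rw [sub_aK]
    by_cases ht : 0 ≤ p.1
    · rw [Metric.mem_ball, Prod.dist_eq, max_lt_iff, Real.dist_eq, dist_eq_norm] at hp
      have h2 : L ^ 2 + 2 * p.1 ≤ A := by
        have := (abs_lt.mp hp.1).2
        have := le_abs_self p0.1
        linarith
      have h3 : ‖p.2‖ ≤ R := by
        have := norm_add_le (p.2 - p0.2) p0.2
        rw [sub_add_cancel] at this
        linarith only [hp, this, hp.2]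
      have h4 := W_le_exp hL ht (p.2 - y.1 • y.2) h2
      have h5 : (1 + 2 * p.1)⁻¹ ≤ 1 := inv_le_one_of_one_le₀ (by linarith only [ht])
      have h6 : exp (-‖p.2 - y.1 • y.2‖ ^ 2 / (4 * A)) ≤
          exp (R ^ 2 / (4 * A)) * exp (-‖(0 : E) - y.1 • y.2‖ ^ 2 / (4 * (2 * A))) := by
        rw [← exp_add, exp_le_exp, zero_sub, norm_neg]
        have h7 : ‖y.1 • y.2‖ ≤ ‖p.2‖ + ‖p.2 - y.1 • y.2‖ := by
          have := norm_sub_le p.2 (p.2 - y.1 • y.2)
          rwa [sub_sub_cancel] at this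
        have h8 : ‖y.1 • y.2‖ ^ 2 ≤ 2 * R ^ 2 + 2 * ‖p.2 - y.1 • y.2‖ ^ 2 := by
          have h9 : ‖y.1 • y.2‖ ≤ R + ‖p.2 - y.1 • y.2‖ := by linarith only [h3, h7]
          have h10 := pow_le_pow_left₀ (norm_nonneg _) h9 2
          linarith only [h10, sq_nonneg (R - ‖p.2 - y.1 • y.2‖), sq_nonneg (R - ‖p.2 - y.1 • y.2‖)]
        rw [show R ^ 2 / (4 * A) + -‖y.1 • y.2‖ ^ 2 / (4 * (2 * A)) =
          (R ^ 2 - ‖y.1 • y.2‖ ^ 2 / 2) / (4 * A) by field_simp; ring]
        exact div_le_div_of_nonneg_right (by linarith only [h8]) (by positivity)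
      have h7 : W L (p.1, p.2 - y.1 • y.2) ≤
          exp (R ^ 2 / (4 * A)) * exp (-‖(0 : E) - y.1 • y.2‖ ^ 2 / (4 * (2 * A))) := by
        refine h4.trans (le_trans ?_ h6)
        exact mul_le_of_le_one_left (exp_pos _).le h5
      simp only [hF, gam3_const, hc]
      have h8 : 0 < √(2 * A) := by positivity
      calc |κ y| * W L (p.1, p.2 - y.1 • y.2) ≤ (9 * HK 2 y.2) *
          (exp (R ^ 2 / (4 * A)) * exp (-‖(0 : E) - y.1 • y.2‖ ^ 2 / (4 * (2 * A)))) :=
            mul_le_mul (hκβ y.1 y.2) h7 (W_nonneg hL _) (by have := HK_nonneg 2 y.2; positivity)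
        _ = _ := by field_simp
    · rw [W_of_neg (p := (p.1, p.2 - y.1 • y.2)) (not_le.mp ht), mul_zero]
      exact mul_nonneg hc0 (mul_nonneg (HK_nonneg _ _) (gam3_nonneg _ _))
  · set F : ℝ × E → ℝ := fun y => 9 * (HK 2 y.2 * W L (p.1, p.2 - y.1 • y.2)) with hF
    have hW := continuous_W_slice (L := L) p.1
    have hFm : Measurable F := by
      have h1 : Continuous fun y : ℝ × E => W L (p.1, p.2 - y.1 • y.2) :=
        hW.comp (f := fun y : ℝ × E => p.2 - y.1 • y.2) (by fun_prop)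
      exact Continuous.measurable (by fun_prop)
    have hbd : ∀ᵐ y ∂μ0, |κ y| * W L (p - aK y) ≤ F y := Eventually.of_forall fun y => by
      rw [sub_aK]
      have := mul_le_mul_of_nonneg_right (hκβ y.1 y.2) (W_nonneg hL (p.1, p.2 - y.1 • y.2))
      simp only [hF]
      linarith
    by_cases ht : 0 ≤ p.1
    · have hc : 0 < √(1 + 2 * p.1) := sqrt_pos.mpr (by linarith)
      obtain ⟨i1, i2⟩ := integrableOn_inv_sq_add hc
      obtain ⟨h1, h2⟩ := integrable_μ0 hFm
        (fun r z _ => mul_nonneg (by norm_num) (mul_nonneg (HK_nonneg _ _) (W_nonneg hL _)))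
        (fun r _ => (integrable_HK_W hL _ r p.2).const_mul _)
        (φ := fun r => 9 * (2 / (√(1 + 2 * p.1) + r) ^ 2)) (i1.const_mul 9) (fun r hr => by
          simp only [hF]
          rw [integral_const_mul, semigroup_W hL ht]
          exact mul_le_mul_of_nonneg_left (W_int_bound hL ht _ hr) (by norm_num))
      refine ⟨F, h1, hbd, h2.trans (le_of_eq ?_)⟩
      rw [integral_const_mul, i2, om]; ring
    · have e : F = fun _ => 0 := by
        funext y; simp only [hF]; rw [W_of_neg (p := (p.1, p.2 - y.1 • y.2)) (not_le.mp ht)]; simp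
      refine ⟨F, by rw [e]; exact integrable_zero _ _ _, hbd, ?_⟩
      rw [e]
      have := om_nonneg p.1
      simp only [integral_zero]
      positivity

/-- Kernel of the Newtonian field. -/
noncomputable def κK (i : Fin 3) (y : ℝ × E) : ℝ := -(HK 1 y.2 * y.2 i)

/-- Kernel of the Duhamel operator in divergence form. -/
noncomputable def κS (i : Fin 3) (y : ℝ × E) : ℝ := HK 1 y.2 * y.2 i

/-- Kernel of the Duhamel operator. -/
noncomputable def κT (y : ℝ × E) : ℝ := 2 * y.1 * HK 1 y.2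

/-- The `i`-th component of the Newtonian field. -/
noncomputable def Kop (i : Fin 3) : (ST → ℝ) → ST → ℝ := avg μ0 (κK i) aK

/-- The Duhamel operator applied to minus the `i`-th derivative. -/
noncomputable def Sop (i : Fin 3) : (ST → ℝ) → ST → ℝ := avg μ0 (κS i) aT

/-- The Duhamel operator. -/
noncomputable def Top : (ST → ℝ) → ST → ℝ := avg μ0 κT aT

lemma measurable_κK (i : Fin 3) : Measurable (κK i) := by
  have := continuous_HK 1
  exact Continuous.measurable (by unfold κK; fun_prop)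

lemma measurable_κS (i : Fin 3) : Measurable (κS i) := by
  have := continuous_HK 1
  exact Continuous.measurable (by unfold κS; fun_prop)

lemma measurable_κT : Measurable κT := by
  have := continuous_HK 1
  exact Continuous.measurable (by unfold κT; fun_prop)

lemma adm_Kop (hL : 1 ≤ L) (i : Fin 3) : Adm μ0 (κK i) aK (W L) (fun p => 18 * om p.1) :=
  adm_K hL (measurable_κK i) fun r z => by
    simp only [κK, abs_neg]; exact abs_HK_coord_le z i

lemma adm_Sop (hL : 1 ≤ L) (i : Fin 3) :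
    Adm μ0 (κS i) aT (fun p => om p.1 * W L p) (fun p => 18 * W L p) := by
  refine adm_T hL (measurable_κS i) (β := fun _ => 9) (C := fun _ => 18) continuous_const
    (fun _ _ => by norm_num) (fun r z _ => abs_HK_coord_le z i) measurable_om om_nonneg
    (fun s hs => om_le_one hs) fun t ht => ?_
  rw [int_cut _ ht]
  rcases ht.eq_or_lt with rfl | ht'
  · simp
  set q := √t with hq
  have hq0 : 0 < q := sqrt_pos.mpr ht'
  have hqt : q ^ 2 = t := sq_sqrt ht
  have hpos : ∀ r ∈ Icc 0 q, 0 < 1 + 2 * q * (q - r) := fun r hr => by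
    have := mul_nonneg hq0.le (sub_nonneg.mpr hr.2); linarith
  have hd : ∀ r ∈ uIcc 0 q, HasDerivAt (fun r => -(9 / q) * √(1 + 2 * q * (q - r)))
      (9 * (√(1 + 2 * q * (q - r)))⁻¹) r := by
    intro r hr
    rw [uIcc_of_le hq0.le] at hr
    have h1 := hpos r hr
    have h2 : HasDerivAt (fun r => 1 + 2 * q * (q - r)) (2 * q * (-1)) r := by
      simpa using (((hasDerivAt_id r).const_sub q).const_mul (2 * q)).const_add 1
    have h3 := (h2.sqrt h1.ne').const_mul (-(9 / q))
    refine h3.congr_deriv ?_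
    have : 0 < √(1 + 2 * q * (q - r)) := sqrt_pos.mpr h1
    field_simp
  have hc : ContinuousOn (fun r => 9 * (√(1 + 2 * q * (q - r)))⁻¹) (Icc 0 q) := by
    refine continuousOn_const.mul (ContinuousOn.inv₀ (by fun_prop) fun r hr => ?_)
    exact (sqrt_pos.mpr (hpos r hr)).ne'
  have hc' : ContinuousOn (fun r => 9 * om (t - r ^ 2)) (Icc 0 q) := by
    refine continuousOn_const.mul (ContinuousOn.inv₀ (by fun_prop) fun r hr => ?_)
    refine (sqrt_pos.mpr ?_).ne'
    have := pow_le_pow_left₀ hr.1 hr.2 2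
    linarith only [hqt, this]
  calc ∫ r in (0 : ℝ)..q, 9 * om (t - r ^ 2)
      ≤ ∫ r in (0 : ℝ)..q, 9 * (√(1 + 2 * q * (q - r)))⁻¹ := by
        refine intervalIntegral.integral_mono_on hq0.le
          (hc'.intervalIntegrable_of_Icc hq0.le) (hc.intervalIntegrable_of_Icc hq0.le)
          fun r hr => ?_
        refine mul_le_mul_of_nonneg_left ?_ (by norm_num)
        refine inv_anti₀ (sqrt_pos.mpr (hpos r hr)) (sqrt_le_sqrt ?_)
        have := mul_nonneg hr.1 (sub_nonneg.mpr hr.2)
        linarith only [hqt, this]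
    _ = -(9 / q) * √(1 + 2 * q * (q - q)) - -(9 / q) * √(1 + 2 * q * (q - 0)) :=
        intervalIntegral.integral_eq_sub_of_hasDerivAt hd (hc.intervalIntegrable_of_Icc hq0.le)
    _ ≤ 18 := by
        have h1 : √(1 + 2 * q * (q - 0)) ≤ 1 + 2 * q := by
          rw [sqrt_le_iff]; constructor <;> linarith only [hq0, ht', hqt]
        simp only [sub_self, mul_zero, add_zero, sqrt_one, mul_one]
        have h2 : 9 / q * √(1 + 2 * q * (q - 0)) ≤ 9 / q * (1 + 2 * q) :=
          mul_le_mul_of_nonneg_left h1 (by positivity)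
        have h3 : 9 / q * (1 + 2 * q) = 9 / q + 18 := by field_simp; ring
        linarith only [h2, h3]

lemma abs_κT_le (r : ℝ) (z : E) (hr : 0 < r) : |κT (r, z)| ≤ 18 * r * HK 2 z := by
  simp only [κT]
  rw [abs_of_nonneg (by have := HK_nonneg 1 z; positivity)]
  have := HK_one_le_two z
  linarith only [hr, this, mul_nonneg_of_nonpos_of_nonpos (le_of_lt (Mathlib.Tactic.Linarith.sub_neg_of_lt hr)) (Mathlib.Tactic.Linarith.sub_nonpos_of_le this)]

lemma adm_Top_exp (hL : 1 ≤ L) :
    Adm μ0 κT aT (fun p => exp (-p.1) * W L p) (fun p => 9 * W L p) := by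
  refine adm_T hL measurable_κT (β := fun r => 18 * r) (C := fun _ => 9) (α := fun s => exp (-s))
    (by fun_prop) (fun _ _ => by positivity) abs_κT_le (by fun_prop) (fun _ => (exp_pos _).le)
    (fun s hs => exp_le_one_iff.mpr (by linarith)) fun t ht => ?_
  rw [int_cut _ ht]
  have hd : ∀ r ∈ uIcc 0 √t, HasDerivAt (fun r => 9 * exp (-(t - r ^ 2)))
      (18 * r * exp (-(t - r ^ 2))) r := by
    intro r _
    have h2 : HasDerivAt (fun r : ℝ => -(t - r ^ 2)) (2 * r) r :=
      ((hasDerivAt_pow 2 r).const_sub t).neg.congr_deriv (by simp)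
    exact (h2.exp.const_mul 9).congr_deriv (by ring)
  rw [intervalIntegral.integral_eq_sub_of_hasDerivAt hd (Continuous.intervalIntegrable
    (by fun_prop) _ _), sq_sqrt ht]
  have := exp_pos (-(t - 0 ^ 2))
  simp only [sub_self, neg_zero, exp_zero]
  linarith

lemma adm_Top (hL : 1 ≤ L) : ∃ B', Adm μ0 κT aT (W L) B' := by
  have := adm_T hL measurable_κT (β := fun r => 18 * r) (α := fun _ => 1)
    (C := fun t => ∫ r in Ioi 0, (if r ^ 2 ≤ t then 18 * r * 1 else 0))
    (by fun_prop) (fun _ _ => by positivity) abs_κT_le (by fun_prop) (fun _ => zero_le_one)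
    (fun _ _ => le_rfl) fun t _ => le_rfl
  simp only [one_mul] at this
  exact ⟨_, this⟩

/-- The bilinear term. -/
noncomputable def Bop (u v : ST → ℝ) : ST → ℝ :=
  fun p => ∑ i, Sop i (fun q => u q * Kop i v q) p

variable {k : ℕ} {u v w : ST → ℝ} {a b c : ℝ}

lemma good_Kop (hL : 1 ≤ L) (hb : 0 ≤ b) (hv : Good k (fun p => b * W L p) v) (i : Fin 3) :
    Good k (fun p => b * (18 * om p.1)) (Kop i v) :=
  ((adm_Kop hL i).const_mul hb).good hv

lemma good_flux (hL : 1 ≤ L) (hb : 0 ≤ b) (hu : Good k (fun p => a * W L p) u)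
    (hv : Good k (fun p => b * W L p) v) (i : Fin 3) :
    Good k (fun p => (2 ^ k * 18 * a * b) * (om p.1 * W L p)) (fun q => u q * Kop i v q) :=
  (hu.mul (good_Kop hL hb hv i)).mono fun p => le_of_eq (by ring)

lemma good_Bop (hL : 1 ≤ L) (ha : 0 ≤ a) (hb : 0 ≤ b) (hk : k ≤ 3)
    (hu : Good k (fun p => a * W L p) u) (hv : Good k (fun p => b * W L p) v) :
    Good k (fun p => (7776 * a * b) * W L p) (Bop u v) := by
  have h := Good.sum (B := fun p => (2 ^ k * 18 * a * b) * (18 * W L p)) Finset.univ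
    (F := fun i => Sop i (fun q => u q * Kop i v q)) fun i _ =>
      ((adm_Sop hL i).const_mul (by positivity)).good (good_flux hL hb hu hv i)
  refine h.mono fun p => ?_
  have h1 : (2 : ℝ) ^ k ≤ 2 ^ 3 := pow_le_pow_right₀ (by norm_num) hk
  have h2 : 0 ≤ a * b * W L p := by have := W_nonneg hL p; positivity
  simp only [Finset.card_univ, Fintype.card_fin, Nat.cast_ofNat]
  linarith only [h1, h2, mul_nonneg_of_nonpos_of_nonpos (Mathlib.Tactic.Linarith.sub_nonpos_of_le h1) (Mathlib.Tactic.Linarith.sub_nonpos_of_le h2)]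

lemma Bop_sub_left (hL : 1 ≤ L) (ha : 0 ≤ a) (hb : 0 ≤ b) (hc : 0 ≤ c)
    (hu : Good k (fun p => a * W L p) u) (hv : Good k (fun p => b * W L p) v)
    (hw : Good k (fun p => c * W L p) w) (p : ST) :
    Bop (fun q => u q - v q) w p = Bop u w p - Bop v w p := by
  simp only [Bop, ← Finset.sum_sub_distrib, sub_mul]
  refine Finset.sum_congr rfl fun i _ => ?_
  exact congrFun (avg_sub ((adm_Sop hL i).const_mul (by positivity))
    ((adm_Sop hL i).const_mul (by positivity)) (good_flux hL hc hu hw i)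
    (good_flux hL hc hv hw i)) p

lemma Bop_sub_right (hL : 1 ≤ L) (ha : 0 ≤ a) (hb : 0 ≤ b) (hc : 0 ≤ c)
    (hu : Good k (fun p => a * W L p) u) (hv : Good k (fun p => b * W L p) v)
    (hw : Good k (fun p => c * W L p) w) (p : ST) :
    Bop w (fun q => u q - v q) p = Bop w u p - Bop w v p := by
  simp only [Bop, ← Finset.sum_sub_distrib]
  refine Finset.sum_congr rfl fun i _ => ?_
  have e : Kop i (fun q => u q - v q) = fun q => Kop i u q - Kop i v q :=
    avg_sub ((adm_Kop hL i).const_mul ha) ((adm_Kop hL i).const_mul hb) hu hv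
  simp only [e, mul_sub]
  exact congrFun (avg_sub ((adm_Sop hL i).const_mul (by positivity))
    ((adm_Sop hL i).const_mul (by positivity)) (good_flux hL ha hw hu i)
    (good_flux hL hb hw hv i)) p

end Pool.Agent.Work.MP_e522c7_an
end

-- merged part: Pool.Agent.Work.MP_e522c7_an.PDE
section
/-!
The differential identities satisfied by the operators.
-/

namespace Pool.Agent.Work.MP_e522c7_an

open Filter Topology MeasureTheory Real Set

/-- The time direction. -/
noncomputable def et : ST := (1, 0)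

/-- The `i`-th space direction. -/
noncomputable def ex (i : Fin 3) : ST := (0, eE i)

lemma norm_et : ‖et‖ ≤ 1 := by simp [et]

lemma norm_ex (i : Fin 3) : ‖ex i‖ ≤ 1 := by simp [ex, eE]

lemma decomp (a : ℝ) (z : E) : ((a, z) : ST) = a • et + ∑ i, z i • ex i := by
  ext j
  · simp [et, ex, Prod.fst_sum]
  · simp only [et, ex, Prod.snd_add, Prod.smul_mk, smul_zero, zero_add, Prod.snd_sum, eE]
    simp [Fin.sum_univ_three]
    fin_cases j <;> simp

lemma fderiv_decomp (f : ST → ℝ) (q : ST) (a : ℝ) (z : E) :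
    fderiv ℝ f q (a, z) = a * D et f q + ∑ i, z i * D (ex i) f q := by
  rw [decomp]; simp [D]

variable {L : ℝ} {k : ℕ} {c : ℝ} {f : ST → ℝ}

lemma Good.bdd (hL : 1 ≤ L) (hc : 0 ≤ c) (hf : Good k (fun p => c * W L p) f) (p : ST) :
    |f p| ≤ c := (hf.bound p).trans (mul_le_of_le_one_right hc (W_le_one hL p))

lemma hasFDerivAt_slice (hf : Differentiable ℝ f) (t r : ℝ) (x z : E) :
    HasFDerivAt (fun z : E => f (t, x - r • z))
      ((fderiv ℝ f (t, x - r • z)).comp
        ((0 : E →L[ℝ] ℝ).prod (-(r • ContinuousLinearMap.id ℝ E)))) z := by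
  have h1 : HasFDerivAt (fun z : E => ((t, x - r • z) : ST))
      ((0 : E →L[ℝ] ℝ).prod (-(r • ContinuousLinearMap.id ℝ E))) z :=
    (hasFDerivAt_const t z).prodMk (((hasFDerivAt_id z).const_smul r).const_sub x)
  exact (hf _).hasFDerivAt.comp z h1

lemma fderiv_slice (hf : Differentiable ℝ f) (t r : ℝ) (x z : E) (i : Fin 3) :
    fderiv ℝ (fun z : E => f (t, x - r • z)) z (eE i) = -r * D (ex i) f (t, x - r • z) := by
  rw [(hasFDerivAt_slice hf t r x z).fderiv]
  have : (((0 : E →L[ℝ] ℝ).prod (-(r • ContinuousLinearMap.id ℝ E))) (eE i)) = (-r) • ex i := by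
    simp [ex]
  rw [ContinuousLinearMap.comp_apply, this, map_smul]
  rfl

lemma stein_slice (hL : 1 ≤ L) (hc : 0 ≤ c) (hf : Good (k + 1) (fun p => c * W L p) f)
    (t r : ℝ) (x : E) (i : Fin 3) :
    ∫ z, HK 1 z * z i * f (t, x - r • z) =
      -(2 * r) * ∫ z, HK 1 z * D (ex i) f (t, x - r • z) := by
  have hD := hf.dir (norm_ex i)
  have hDc := hD.continuous
  rw [stein i (h := fun z => f (t, x - r • z)) (C := c + |r| * c)
    (fun z => (hasFDerivAt_slice hf.1 t r x z).differentiableAt)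
    (by simp only [fderiv_slice hf.1]; fun_prop)
    (fun z => (hf.bdd hL hc _).trans (by have := abs_nonneg r; linarith only [hc, this, mul_nonneg_of_nonpos_of_nonpos (Mathlib.Tactic.Linarith.sub_nonpos_of_le hc) (Mathlib.Tactic.Linarith.sub_nonpos_of_le this)]))
    (fun z => by
      rw [fderiv_slice hf.1, abs_mul, abs_neg]
      have := mul_le_mul_of_nonneg_left (hD.bdd hL hc (t, x - r • z)) (abs_nonneg r)
      linarith)]
  simp only [fderiv_slice hf.1]
  have e : (fun z => HK 1 z * (-r * D (ex i) f (t, x - r • z))) =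
      fun z => -r * (HK 1 z * D (ex i) f (t, x - r • z)) := by funext z; ring
  rw [e, integral_const_mul]; ring

lemma avg_μ0_eq {κ : ℝ × E → ℝ} {a : ℝ × E → ST} {B B' : ST → ℝ} (h : Adm μ0 κ a B B')
    (hf : Good k B f) (p : ST) :
    IntegrableOn (fun r => ∫ z, κ (r, z) * f (p - a (r, z))) (Ioi 0) ∧
    avg μ0 κ a f p = ∫ r in Ioi 0, ∫ z, κ (r, z) * f (p - a (r, z)) := by
  have hI := h.integrable hf p
  unfold μ0 at hI
  exact ⟨hI.integral_prod_left, integral_prod _ hI⟩

lemma Top_eq (hL : 1 ≤ L) (hc : 0 ≤ c) (hf : Good k (fun p => c * W L p) f) (p : ST) :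
    IntegrableOn (fun r => 2 * r * ∫ z, HK 1 z * f (p.1 - r ^ 2, p.2 - r • z)) (Ioi 0) ∧
    Top f p = ∫ r in Ioi 0, 2 * r * ∫ z, HK 1 z * f (p.1 - r ^ 2, p.2 - r • z) := by
  obtain ⟨B', hB'⟩ := adm_Top hL
  have := avg_μ0_eq (hB'.const_mul hc) hf p
  simp only [κT, sub_aT, mul_assoc, integral_const_mul] at this
  simp only [mul_assoc, integral_const_mul]
  exact this

lemma om_W_le (hL : 1 ≤ L) (hc : 0 ≤ c) (p : ST) : c * (om p.1 * W L p) ≤ c * W L p := by
  refine mul_le_mul_of_nonneg_left ?_ hc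
  by_cases hp : 0 ≤ p.1
  · exact mul_le_of_le_one_left (W_nonneg hL p) (om_le_one hp)
  · rw [W_of_neg (not_le.mp hp)]; simp

lemma Sop_eq_neg_Top (hL : 1 ≤ L) (hc : 0 ≤ c)
    (hf : Good (k + 1) (fun p => c * (om p.1 * W L p)) f) (i : Fin 3) (p : ST) :
    Sop i f p = -Top (D (ex i) f) p := by
  have hf' := hf.mono (om_W_le hL hc)
  rw [(Top_eq hL hc (hf'.dir (norm_ex i)) p).2, Sop,
    (avg_μ0_eq ((adm_Sop hL i).const_mul hc) hf p).2, ← integral_neg]
  congr 1
  funext r
  simp only [κS, sub_aT]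
  rw [stein_slice hL hc hf']
  ring

lemma hasDerivAt_phi (hL : 1 ≤ L) (hc : 0 ≤ c) (hf : Good (k + 1) (fun p => c * W L p) f)
    (d t : ℝ) (x : E) (r : ℝ) :
    HasDerivAt (fun r => ∫ z, HK 1 z * f (t - d * r ^ 2, x - r • z))
      (-(2 * d * r) * (∫ z, HK 1 z * D et f (t - d * r ^ 2, x - r • z)) -
        ∑ i, ∫ z, HK 1 z * z i * D (ex i) f (t - d * r ^ 2, x - r • z)) r := by
  have hHK := continuous_HK 1
  have hfc := hf.continuous
  have hDt := (hf.dir norm_et).continuous
  have hDx := fun i => (hf.dir (norm_ex i)).continuous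
  have i1 : ∀ r : ℝ, Integrable fun z => HK 1 z * D et f (t - d * r ^ 2, x - r • z) := fun r =>
    integrable_HK_mul one_pos (by fun_prop) fun z => (hf.dir norm_et).bdd hL hc _
  have i2 : ∀ (r : ℝ) i, Integrable fun z : E =>
      HK 1 z * z i * D (ex i) f (t - d * r ^ 2, x - r • z) := fun r i => by
    have := hDx i
    exact integrable_HK_coord_mul i (by fun_prop) fun z => (hf.dir (norm_ex i)).bdd hL hc _
  have key := hasDerivAt_integral_of_dominated_loc_of_deriv_le (μ := (volume : Measure E))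
    (F := fun r z => HK 1 z * f (t - d * r ^ 2, x - r • z)) (x₀ := r)
    (F' := fun r z => -(2 * d * r) * (HK 1 z * D et f (t - d * r ^ 2, x - r • z)) -
        ∑ i, HK 1 z * z i * D (ex i) f (t - d * r ^ 2, x - r • z))
    (bound := fun z => (2 * |d| * (|r| + 1) * 9 * c + 3 * 9 * c) * HK 2 z)
    (Metric.ball_mem_nhds r one_pos)
    (Eventually.of_forall fun r => Continuous.aestronglyMeasurable (by fun_prop))
    (integrable_HK_mul one_pos (by fun_prop) fun z => hf.bdd hL hc _)
    (((i1 r).const_mul _).sub (integrable_finsetSum _ fun i _ => i2 r i)).aestronglyMeasurable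
    (Eventually.of_forall fun z s hs => by
      have hs' : |s| ≤ |r| + 1 := by
        rw [Metric.mem_ball, Real.dist_eq] at hs
        have := abs_sub_abs_le_abs_sub s r
        linarith
      have hH := HK_nonneg 2 z
      have a1 : |(-(2 * d * s)) * (HK 1 z * D et f (t - d * s ^ 2, x - s • z))| ≤
          2 * |d| * (|r| + 1) * (9 * HK 2 z * c) := by
        rw [abs_mul, abs_neg, abs_mul, abs_mul, abs_mul, abs_of_nonneg (HK_nonneg 1 z),
          abs_two]
        have := HK_one_le_two z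
        have := (hf.dir norm_et).bdd hL hc (t - d * s ^ 2, x - s • z)
        have := HK_nonneg 1 z
        gcongr
      have a2 : ∀ i, |HK 1 z * z i * D (ex i) f (t - d * s ^ 2, x - s • z)| ≤
          9 * HK 2 z * c := fun i => by
        rw [abs_mul]
        exact mul_le_mul (abs_HK_coord_le z i) ((hf.dir (norm_ex i)).bdd hL hc _) (abs_nonneg _)
          (by positivity)
      rw [Real.norm_eq_abs]
      refine (abs_sub _ _).trans ?_
      have a3 := (Finset.abs_sum_le_sum_abs _ Finset.univ).trans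
        (Finset.sum_le_sum fun i _ => a2 i)
      simp only [Finset.sum_const, Finset.card_univ, Fintype.card_fin, nsmul_eq_mul,
        Nat.cast_ofNat] at a3
      linarith only [a1, a3])
    ((integrable_HK two_pos).const_mul _)
    (Eventually.of_forall fun z s _ => by
      have h1 : HasDerivAt (fun s : ℝ => ((t - d * s ^ 2, x - s • z) : ST))
          ((-(2 * d * s), -z) : ST) s := by
        refine HasDerivAt.prodMk ?_ ?_
        · exact (((hasDerivAt_pow 2 s).const_mul d).const_sub t).congr_deriv (by simp; ring)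
        · simpa using ((hasDerivAt_id s).smul_const z).const_sub x
      have h2 := ((hf.1 _).hasFDerivAt.comp_hasDerivAt s h1).const_mul (HK 1 z)
      refine h2.congr_deriv ?_
      rw [fderiv_decomp]
      simp only [Fin.sum_univ_three, PiLp.neg_apply]
      ring)
  refine key.2.congr_deriv ?_
  rw [integral_sub ((i1 r).const_mul _) (integrable_finsetSum _ fun i _ => i2 r i),
    integral_const_mul, integral_finsetSum _ fun i _ => i2 r i]

lemma heat_Top (hL : 1 ≤ L) (hc : 0 ≤ c) (hf : Good 2 (fun p => c * W L p) f) (p : ST) :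
    D et (Top f) p = ∑ i, D (ex i) (D (ex i) (Top f)) p + f p := by
  obtain ⟨B', hB'⟩ := adm_Top hL
  have hA := hB'.const_mul hc
  have e1 : D et (Top f) = Top (D et f) := hA.D_avg hf _
  have e2 : ∀ i, D (ex i) (D (ex i) (Top f)) = Top (D (ex i) (D (ex i) f)) := fun i => by
    rw [show D (ex i) (Top f) = Top (D (ex i) f) from hA.D_avg hf _]
    exact hA.D_avg (hf.dir (norm_ex i)) _
  obtain ⟨a1, a2⟩ := Top_eq hL hc (hf.dir norm_et) p
  have b := fun i => Top_eq hL hc ((hf.dir (norm_ex i)).dir (norm_ex i)) p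
  have hd : ∀ r ∈ Ici (0 : ℝ), HasDerivAt (fun r => ∫ z, HK 1 z * f (p.1 - r ^ 2, p.2 - r • z))
      (∑ i, 2 * r * (∫ z, HK 1 z * D (ex i) (D (ex i) f) (p.1 - r ^ 2, p.2 - r • z)) -
        2 * r * (∫ z, HK 1 z * D et f (p.1 - r ^ 2, p.2 - r • z))) r := by
    intro r _
    have := hasDerivAt_phi hL hc hf 1 p.1 p.2 r
    simp only [one_mul, mul_one] at this
    refine this.congr_deriv ?_
    simp only [stein_slice hL hc (hf.dir (norm_ex _)), Fin.sum_univ_three]
    ring
  have hlim : Tendsto (fun r => ∫ z, HK 1 z * f (p.1 - r ^ 2, p.2 - r • z)) atTop (𝓝 0) := by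
    refine tendsto_const_nhds.congr' ?_
    filter_upwards [eventually_gt_atTop (|p.1| + 1)] with r hr
    have h1 : p.1 - r ^ 2 < 0 := by
      have := le_abs_self p.1
      have := abs_nonneg p.1
      nlinarith
    have : ∀ z : E, f (p.1 - r ^ 2, p.2 - r • z) = 0 := fun z => by
      have := hf.bound (p.1 - r ^ 2, p.2 - r • z)
      rw [W_of_neg (p := (p.1 - r ^ 2, p.2 - r • z)) h1, mul_zero] at this
      exact abs_nonpos_iff.mp this
    simp [this]
  have hI := integral_Ioi_of_hasDerivAt_of_tendsto' hd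
    ((integrable_finsetSum _ fun i _ => (b i).1).sub a1) hlim
  rw [integral_sub (integrable_finsetSum _ fun i _ => (b i).1) a1,
    integral_finsetSum _ fun i _ => (b i).1] at hI
  simp only [ne_eq, OfNat.ofNat_ne_zero, not_false_eq_true, zero_pow, sub_zero, zero_smul,
    integral_mul_const, integral_HK one_pos, one_mul, zero_sub] at hI
  simp only [e1, e2, a2, fun i => (b i).2]
  linarith

lemma div_Kop (hL : 1 ≤ L) (hc : 0 ≤ c) (hf : Good (k + 1) (fun p => c * W L p) f) (p : ST) :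
    ∑ i, D (ex i) (Kop i f) p = -f p := by
  have e1 : ∀ i, D (ex i) (Kop i f) = Kop i (D (ex i) f) := fun i =>
    ((adm_Kop hL i).const_mul hc).D_avg hf _
  have b := fun i => avg_μ0_eq ((adm_Kop hL i).const_mul hc) (hf.dir (norm_ex i)) p
  simp only [κK, sub_aK, neg_mul, integral_neg] at b
  have hd : ∀ r ∈ Ici (0 : ℝ), HasDerivAt (fun r : ℝ => ∫ z, HK 1 z * f (p.1, p.2 - r • z))
      (∑ i, -∫ z, HK 1 z * z i * D (ex i) f (p.1, p.2 - r • z)) r := by
    intro r _
    have := hasDerivAt_phi hL hc hf 0 p.1 p.2 r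
    simp only [zero_mul, mul_zero, sub_zero, neg_zero, zero_sub] at this
    refine this.congr_deriv ?_
    simp
  have hlim : Tendsto (fun r : ℝ => ∫ z, HK 1 z * f (p.1, p.2 - r • z)) atTop (𝓝 0) := by
    by_cases ht : 0 ≤ p.1
    · have h0 : Tendsto (fun r : ℝ => 9 * c * r⁻¹) atTop (𝓝 0) := by
        simpa using tendsto_inv_atTop_zero.const_mul (9 * c)
      refine squeeze_zero_norm' ?_ h0
      filter_upwards [eventually_ge_atTop 1] with r hr
      have h1 : ‖∫ z, HK 1 z * f (p.1, p.2 - r • z)‖ ≤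
          ∫ z, 9 * c * (HK 2 z * W L (p.1, p.2 - r • z)) := by
        refine norm_integral_le_of_norm_le ((integrable_HK_W hL _ _ _).const_mul _)
          (Eventually.of_forall fun z => ?_)
        rw [Real.norm_eq_abs, abs_mul, abs_of_nonneg (HK_nonneg _ _)]
        calc HK 1 z * |f (p.1, p.2 - r • z)| ≤ (9 * HK 2 z) * (c * W L (p.1, p.2 - r • z)) :=
            mul_le_mul (HK_one_le_two z) (hf.bound _) (abs_nonneg _)
              (by have := HK_nonneg 2 z; positivity)
          _ = _ := by ring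
      rw [integral_const_mul, semigroup_W hL ht] at h1
      refine h1.trans (mul_le_mul_of_nonneg_left ?_ (by positivity))
      refine (W_le_inv hL (by positivity) _).trans (inv_anti₀ (by linarith) (by linarith only [ht, hr, sq_nonneg r, mul_nonneg_of_nonpos_of_nonpos (Mathlib.Tactic.Linarith.sub_nonpos_of_le hr) (Mathlib.Tactic.Linarith.sub_nonpos_of_le hr)]))
    · have : ∀ y : E, f (p.1, y) = 0 := fun y => by
        have := hf.bound (p.1, y)
        rw [W_of_neg (p := (p.1, y)) (not_le.mp ht), mul_zero] at this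
        exact abs_nonpos_iff.mp this
      simp [this]
  have hI := integral_Ioi_of_hasDerivAt_of_tendsto' hd
    (integrable_finsetSum _ fun i _ => (b i).1) hlim
  rw [integral_finsetSum _ fun i _ => (b i).1] at hI
  simp only [sub_zero, zero_smul, integral_mul_const, integral_HK one_pos, one_mul,
    zero_sub] at hI
  simp only [e1]
  simp only [Kop, fun i => (b i).2]
  simp only [integral_neg] at hI
  exact hI

end Pool.Agent.Work.MP_e522c7_an
end

-- merged part: Pool.Agent.Work.MP_e522c7_an.Kernel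
section
/-!
Identification of `Kop` with the gradient of the Newtonian potential.
-/

namespace Pool.Agent.Work.MP_e522c7_an

open Filter Topology MeasureTheory Real Set

/-- The area of the unit sphere. -/
noncomputable def sig : ℝ := 3 * (volume (Metric.ball (0 : E) 1)).toReal

/-- The radial profile of the heat kernel at time one. -/
noncomputable def rho (s : ℝ) : ℝ := (√(4 * π))⁻¹ ^ 3 * exp (-s ^ 2 / 4)

lemma HK_eq_rho (z : E) : HK 1 z = rho ‖z‖ := by rw [HK_eq]; simp [rho]

lemma rho_nonneg (s : ℝ) : 0 ≤ rho s := by unfold rho; positivity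

lemma sig_mul : sig * ∫ y in Ioi (0 : ℝ), y ^ 2 * rho y = 1 := by
  have h := integral_fun_norm_addHaar (volume : Measure E) rho
  simp only [← HK_eq_rho, integral_HK one_pos, finrank_euclideanSpace, Fintype.card_fin,
    smul_eq_mul, nsmul_eq_mul, Measure.real] at h
  rw [h, sig]
  norm_num [mul_assoc]

lemma sig_pos : 0 < sig := by
  unfold sig
  have := ENNReal.toReal_pos (Metric.measure_ball_pos (volume : Measure E) 0 one_pos).ne'
    measure_ball_lt_top.ne
  positivity

lemma radial {s : ℝ} (hs : 0 < s) :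
    IntegrableOn (fun r : ℝ => r⁻¹ ^ 4 * rho (s / r)) (Ioi 0) ∧
      ∫ r in Ioi (0 : ℝ), r⁻¹ ^ 4 * rho (s / r) = s⁻¹ ^ 3 / sig := by
  have h1 := integral_comp_rpow_Ioi (fun y : ℝ => y ^ 2 * rho (s * y)) (p := -1) (by norm_num)
  have h2 := integral_comp_mul_left_Ioi (fun y : ℝ => y ^ 2 * rho y) 0 hs
  have h3 : ∫ y in Ioi (0 : ℝ), y ^ 2 * rho y = 1 / sig := by
    rw [eq_div_iff sig_pos.ne', mul_comm, sig_mul]
  have h4 : ∫ y in Ioi (0 : ℝ), y ^ 2 * rho (s * y) = s⁻¹ ^ 3 / sig := by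
    have e : (fun y : ℝ => (s * y) ^ 2 * rho (s * y)) =
        fun y => s ^ 2 * (y ^ 2 * rho (s * y)) := by funext y; ring
    rw [e, integral_const_mul, mul_zero, h3, smul_eq_mul] at h2
    have := sig_pos
    field_simp at h2 ⊢
    linarith only [h2]
  have h5 : ∫ r in Ioi (0 : ℝ), r⁻¹ ^ 4 * rho (s / r) = s⁻¹ ^ 3 / sig := by
    rw [← h4, ← h1]
    refine setIntegral_congr_fun measurableSet_Ioi fun r hr => ?_
    have hr' : (0 : ℝ) < r := hr
    simp only [smul_eq_mul, rpow_neg_one, div_eq_mul_inv]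
    rw [show (-1 - 1 : ℝ) = -(2 : ℕ) by norm_num, rpow_neg hr'.le, rpow_natCast]
    simp only [abs_neg, abs_one, one_mul, inv_pow]
    field_simp
  refine ⟨Integrable.of_integral_ne_zero ?_, h5⟩
  rw [h5]
  have := sig_pos
  positivity

lemma integrable_ball_inv (j : ℕ) (hj : j ≤ 2) :
    Integrable ((Metric.ball (0 : E) 1).indicator fun w => (‖w‖ ^ j)⁻¹) := by
  rw [integrable_indicator_iff measurableSet_ball]
  refine integrableOn_ball_of_norm_le_rpow (C := 1) (α := j) (by simp) ?_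
    (Eventually.of_forall fun w => ?_) (Measurable.aestronglyMeasurable (by fun_prop))
  · have : (j : ℝ) ≤ 2 := by exact_mod_cast hj
    simp only [finrank_euclideanSpace, Fintype.card_fin, Nat.cast_ofNat]
    linarith only [this]
  · rw [rpow_neg (norm_nonneg _), rpow_natCast, one_mul, Real.norm_eq_abs,
      abs_of_nonneg (by positivity)]

/-- The integral of `‖w‖ ^ (-j)` over the unit ball. -/
noncomputable def Jb (j : ℕ) : ℝ := ∫ w, (Metric.ball (0 : E) 1).indicator (fun w => (‖w‖ ^ j)⁻¹) w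

lemma integrable_div_norm {n : E → ℝ} (hn : Continuous n) (hi : Integrable n) {C : ℝ}
    (hC : ∀ y, |n y| ≤ C) (j : ℕ) (hj : j ≤ 2) (x : E) :
    Integrable (fun y => |n y| / ‖x - y‖ ^ j) ∧
      ∫ y, |n y| / ‖x - y‖ ^ j ≤ (∫ y, |n y|) + C * Jb j := by
  have h1 := ((integrable_ball_inv j hj).comp_sub_left x).const_mul C
  have hC0 : 0 ≤ C := (abs_nonneg _).trans (hC 0)
  have hle : ∀ y, |n y| / ‖x - y‖ ^ j ≤
      |n y| + C * (Metric.ball (0 : E) 1).indicator (fun w => (‖w‖ ^ j)⁻¹) (x - y) := by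
    intro y
    by_cases hy : x - y ∈ Metric.ball (0 : E) 1
    · rw [indicator_of_mem hy, div_eq_mul_inv]
      have := mul_le_mul_of_nonneg_right (hC y) (show 0 ≤ (‖x - y‖ ^ j)⁻¹ by positivity)
      have := abs_nonneg (n y)
      linarith
    · rw [indicator_of_notMem hy, mul_zero, add_zero]
      refine div_le_self (abs_nonneg _) (one_le_pow₀ ?_)
      simpa using hy
  have h2 : Integrable (fun y => |n y| / ‖x - y‖ ^ j) := by
    refine (hi.abs.add h1).mono' (Measurable.aestronglyMeasurable (by fun_prop))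
      (Eventually.of_forall fun y => ?_)
    rw [Real.norm_eq_abs, abs_of_nonneg (by positivity)]
    exact hle y
  refine ⟨h2, (integral_mono h2 (hi.abs.add h1) hle).trans (le_of_eq ?_)⟩
  rw [integral_add' hi.abs h1, integral_const_mul,
    integral_sub_left_eq_self ((Metric.ball (0 : E) 1).indicator (fun w => (‖w‖ ^ j)⁻¹)) volume x]
  rfl

lemma abs_coord_le (w : E) (i : Fin 3) : |w i| ≤ ‖w‖ := by
  simpa using PiLp.norm_apply_le w i

lemma newton_component {n : E → ℝ} (hn : Continuous n) (hi : Integrable n) {C : ℝ}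
    (hC : ∀ y, |n y| ≤ C) (x : E) (i : Fin 3) :
    ∫ r in Ioi (0 : ℝ), ∫ z, HK 1 z * z i * n (x - r • z) =
      (1 / sig) * ∫ y, n y / ‖x - y‖ ^ 3 * (x - y) i := by
  set Φ : ℝ → E → ℝ := fun r w => r⁻¹ ^ 4 * rho (‖w‖ / r) * (w i * n (x - w)) with hΦ
  have h1 : ∀ r ∈ Ioi (0 : ℝ), ∫ z, HK 1 z * z i * n (x - r • z) = ∫ w, Φ r w := by
    intro r hr
    have hr' : (0 : ℝ) < r := hr
    have h := Measure.integral_comp_smul volume (Φ r) r
    have e : (fun z : E => Φ r (r • z)) =
        fun z => (r ^ 3)⁻¹ * (HK 1 z * z i * n (x - r • z)) := by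
      funext z
      simp only [hΦ, norm_smul, Real.norm_eq_abs, abs_of_pos hr', HK_eq_rho, PiLp.smul_apply,
        smul_eq_mul]
      rw [mul_div_cancel_left₀ _ hr'.ne']
      field_simp
    rw [e, integral_const_mul] at h
    simp only [finrank_euclideanSpace, Fintype.card_fin, smul_eq_mul] at h
    rw [abs_of_pos (by positivity)] at h
    exact mul_left_cancel₀ (by positivity) h
  have h2 : ∀ w : E, IntegrableOn (fun r => Φ r w) (Ioi 0) ∧
      ∫ r in Ioi (0 : ℝ), Φ r w = ‖w‖⁻¹ ^ 3 / sig * (w i * n (x - w)) ∧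
      ∫ r in Ioi (0 : ℝ), ‖Φ r w‖ = ‖w‖⁻¹ ^ 3 / sig * |w i * n (x - w)| := by
    intro w
    by_cases hw : w = 0
    · simp [hΦ, hw]
    have hw' : 0 < ‖w‖ := norm_pos_iff.mpr hw
    obtain ⟨a1, a2⟩ := radial hw'
    refine ⟨a1.mul_const _, by simp only [hΦ]; rw [integral_mul_const, a2], ?_⟩
    rw [← a2, ← integral_mul_const]
    congr 1
    funext r
    simp only [hΦ]
    rw [Real.norm_eq_abs, abs_mul, abs_of_nonneg (mul_nonneg (by positivity) (rho_nonneg _))]
  have hm : Measurable (Function.uncurry Φ) := by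
    simp only [hΦ, rho]
    unfold Function.uncurry
    fun_prop
  have hI : Integrable (Function.uncurry Φ) ((volume.restrict (Ioi 0)).prod volume) := by
    rw [integrable_prod_iff' hm.aestronglyMeasurable]
    refine ⟨Eventually.of_forall fun w => (h2 w).1, ?_⟩
    simp only [Function.uncurry_apply_pair, fun w => (h2 w).2.2]
    have h3 := (((integrable_div_norm hn hi hC 2 le_rfl x).1).comp_sub_left x).const_mul (1 / sig)
    refine h3.mono' (Measurable.aestronglyMeasurable (by fun_prop))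
      (Eventually.of_forall fun w => ?_)
    have := sig_pos
    rw [Real.norm_eq_abs, abs_of_nonneg (by positivity), sub_sub_cancel, abs_mul]
    by_cases hw : w = 0
    · simp [hw]
    have hw' : 0 < ‖w‖ := norm_pos_iff.mpr hw
    calc ‖w‖⁻¹ ^ 3 / sig * (|w i| * |n (x - w)|) ≤ ‖w‖⁻¹ ^ 3 / sig * (‖w‖ * |n (x - w)|) := by
          gcongr; exact abs_coord_le w i
      _ = _ := by field_simp
  rw [setIntegral_congr_fun measurableSet_Ioi h1, integral_integral_swap hI]
  simp only [fun w => (h2 w).2.1]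
  rw [← integral_const_mul, ← integral_sub_left_eq_self _ volume x]
  congr 1
  funext y
  simp only [sub_sub_cancel, inv_pow]
  ring

lemma integrable_newton {n : E → ℝ} (hn : Continuous n) (hi : Integrable n) {C : ℝ}
    (hC : ∀ y, |n y| ≤ C) (x : E) :
    Integrable fun y => (n y / ‖x - y‖ ^ 3) • (x - y) := by
  refine (integrable_div_norm hn hi hC 2 le_rfl x).1.mono'
    (Measurable.aestronglyMeasurable (by fun_prop)) (Eventually.of_forall fun y => le_of_eq ?_)
  rw [norm_smul, Real.norm_eq_abs, abs_div, abs_of_nonneg (show 0 ≤ ‖x - y‖ ^ 3 by positivity)]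
  by_cases hw : ‖x - y‖ = 0
  · simp [hw]
  field_simp

variable {L : ℝ} {k : ℕ} {c : ℝ} {f : ST → ℝ}

lemma Good.integrable_slice (hL : 1 ≤ L) (hf : Good k (fun p => c * W L p) f) {t : ℝ}
    (ht : 0 ≤ t) : Integrable fun x => f (t, x) := by
  have := hf.continuous
  exact ((integrable_W hL ht).const_mul c).mono' (Continuous.aestronglyMeasurable (by fun_prop))
    (Eventually.of_forall fun x => hf.bound (t, x))

lemma Kop_eq (hL : 1 ≤ L) (hc : 0 ≤ c) (hf : Good k (fun p => c * W L p) f) {t : ℝ} (ht : 0 ≤ t)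
    (x : E) (i : Fin 3) :
    Kop i f (t, x) = ((-(1 / sig)) • ∫ y, (f (t, y) / ‖x - y‖ ^ 3) • (x - y)) i := by
  have hfc := hf.continuous
  have hn : Continuous fun y => f (t, y) := by fun_prop
  have hi := hf.integrable_slice hL ht
  have hC : ∀ y, |f (t, y)| ≤ c := fun y => hf.bdd hL hc _
  have b := (avg_μ0_eq ((adm_Kop hL i).const_mul hc) hf (t, x)).2
  simp only [κK, sub_aK, neg_mul, integral_neg] at b
  rw [Kop, b, newton_component hn hi hC x i]
  have h := (EuclideanSpace.proj (𝕜 := ℝ) i : E →L[ℝ] ℝ).integral_comp_comm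
    (integrable_newton hn hi hC x)
  simp only [EuclideanSpace.coe_proj, PiLp.smul_apply, smul_eq_mul] at h
  rw [PiLp.smul_apply, smul_eq_mul, ← h]
  ring

end Pool.Agent.Work.MP_e522c7_an
end

-- merged part: Pool.Agent.Work.MP_e522c7_an.Source
section
/-!
The source term (a thin long tube) and the lower bound for the interaction energy.
-/

namespace Pool.Agent.Work.MP_e522c7_an

open Filter Topology MeasureTheory Real Set

/-- Bump in time. -/
noncomputable def chi : ContDiffBump (1 / 2 : ℝ) := ⟨1 / 4, 1 / 3, by norm_num, by norm_num⟩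

/-- Bump in space. -/
noncomputable def psi : ContDiffBump (0 : E) := ⟨6, 7, by norm_num, by norm_num⟩

/-- Bump in space-time. -/
noncomputable def Psi (p : ST) : ℝ := chi p.1 * psi p.2

lemma Psi_nonneg (p : ST) : 0 ≤ Psi p := mul_nonneg chi.nonneg psi.nonneg

lemma contDiff_Psi : ContDiff ℝ 3 Psi :=
  (chi.contDiff.comp contDiff_fst).mul (psi.contDiff.comp contDiff_snd)

lemma tsupport_Psi : tsupport Psi ⊆ Metric.closedBall (1 / 2 : ℝ) (1 / 3) ×ˢ
    Metric.closedBall (0 : E) 7 := by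
  refine closure_minimal (fun p hp => ?_) (Metric.isClosed_closedBall.prod Metric.isClosed_closedBall)
  have h1 : p.1 ∈ Function.support chi := left_ne_zero_of_mul hp
  have h2 : p.2 ∈ Function.support psi := right_ne_zero_of_mul hp
  rw [chi.support_eq] at h1
  rw [psi.support_eq] at h2
  exact ⟨Metric.ball_subset_closedBall h1, Metric.ball_subset_closedBall h2⟩

lemma hasCompactSupport_Psi : HasCompactSupport Psi :=
  ((isCompact_closedBall _ _).prod (isCompact_closedBall _ _)).of_isClosed_subset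
    (isClosed_tsupport _) tsupport_Psi

/-- Contraction of the third coordinate. -/
noncomputable def LamE (L : ℝ) : E →L[ℝ] E :=
  ContinuousLinearMap.id ℝ E - (1 - L⁻¹) • (EuclideanSpace.proj (𝕜 := ℝ) 2).smulRight (eE 2)

lemma norm_sq_LamE (L : ℝ) (x : E) : ‖LamE L x‖ ^ 2 = x 0 ^ 2 + x 1 ^ 2 + (x 2 / L) ^ 2 := by
  rw [norm_sq_E]
  simp [LamE, eE]
  ring

/-- Contraction of the third coordinate in space-time. -/
noncomputable def Lam (L : ℝ) : ST →L[ℝ] ST := (ContinuousLinearMap.id ℝ ℝ).prodMap (LamE L)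

lemma Lam_apply (L : ℝ) (p : ST) : Lam L p = (p.1, LamE L p.2) := rfl

variable {L : ℝ}

lemma norm_LamE_le (hL : 1 ≤ L) (x : E) : ‖LamE L x‖ ≤ ‖x‖ := by
  refine le_of_pow_le_pow_left₀ two_ne_zero (norm_nonneg _) ?_
  rw [norm_sq_LamE, norm_sq_E, div_pow]
  have : x 2 ^ 2 / L ^ 2 ≤ x 2 ^ 2 := div_le_self (sq_nonneg _) (by linarith only [hL, mul_nonneg_of_nonpos_of_nonpos (Mathlib.Tactic.Linarith.sub_nonpos_of_le hL) (Mathlib.Tactic.Linarith.sub_nonpos_of_le hL)])
  linarith only [this]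

lemma norm_Lam_le (hL : 1 ≤ L) (p : ST) : ‖Lam L p‖ ≤ ‖p‖ := by
  rw [Lam_apply, Prod.norm_def, Prod.norm_def]
  exact max_le_max le_rfl (norm_LamE_le hL _)

lemma W_ge (hL : 1 ≤ L) {t : ℝ} (ht : 0 ≤ t) (ht1 : t ≤ 1) (x : E) :
    1 / 6 * exp (-‖LamE L x‖ ^ 2 / 4) ≤ W L (t, x) := by
  simp only [W, if_pos ht, gam3, gam, Fin.prod_univ_three, aL, norm_sq_LamE]
  simp only [Matrix.cons_val_zero, Matrix.cons_val_one, Matrix.cons_val]
  have h1 : 0 < 1 + 2 * t := by linarith
  have hL2 : 1 ≤ L ^ 2 := by linarith only [hL, mul_nonneg_of_nonpos_of_nonpos (Mathlib.Tactic.Linarith.sub_nonpos_of_le hL) (Mathlib.Tactic.Linarith.sub_nonpos_of_le hL)]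
  have h2 : 0 < L ^ 2 + 2 * t := by linarith
  have h3 : 1 / 2 ≤ L * (√(L ^ 2 + 2 * t))⁻¹ := by
    rw [← div_eq_mul_inv, le_div_iff₀ (sqrt_pos.mpr h2)]
    have : √(L ^ 2 + 2 * t) ≤ 2 * L := by
      rw [sqrt_le_iff]; constructor <;> linarith only [hL, ht1, hL2]
    linarith only [this]
  have h4 : 1 / 3 ≤ (√(1 + 2 * t))⁻¹ * (√(1 + 2 * t))⁻¹ := by
    rw [← mul_inv, mul_self_sqrt h1.le, one_div]
    exact inv_anti₀ h1 (by linarith only [ht1])
  have h5 : ∀ (y a b : ℝ), 0 < a → a ≤ b → exp (-y ^ 2 / (4 * a)) ≤ exp (-y ^ 2 / (4 * b)) := by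
    intro y a b ha hab
    rw [exp_le_exp, neg_div, neg_div, neg_le_neg_iff]
    exact div_le_div_of_nonneg_left (sq_nonneg y) (by positivity) (by linarith only [hab])
  have e0 := h5 (x 0) 1 (1 + 2 * t) one_pos (by linarith only [ht])
  have e1 := h5 (x 1) 1 (1 + 2 * t) one_pos (by linarith only [ht])
  have e2 := h5 (x 2) (L ^ 2) (L ^ 2 + 2 * t) (by positivity) (by linarith only [ht])
  rw [show -(x 0 ^ 2 + x 1 ^ 2 + (x 2 / L) ^ 2) / 4 =
    -x 0 ^ 2 / (4 * 1) + -x 1 ^ 2 / (4 * 1) + -x 2 ^ 2 / (4 * L ^ 2) by field_simp; ring,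
    exp_add, exp_add]
  calc 1 / 6 * (exp (-x 0 ^ 2 / (4 * 1)) * exp (-x 1 ^ 2 / (4 * 1)) * exp (-x 2 ^ 2 / (4 * L ^ 2)))
      = 1 / 2 * (1 / 3 *
        (exp (-x 0 ^ 2 / (4 * 1)) * exp (-x 1 ^ 2 / (4 * 1)) * exp (-x 2 ^ 2 / (4 * L ^ 2)))) := by
        ring
    _ ≤ (L * (√(L ^ 2 + 2 * t))⁻¹) * ((√(1 + 2 * t))⁻¹ * (√(1 + 2 * t))⁻¹ *
        (exp (-x 0 ^ 2 / (4 * (1 + 2 * t))) * exp (-x 1 ^ 2 / (4 * (1 + 2 * t))) *
          exp (-x 2 ^ 2 / (4 * (L ^ 2 + 2 * t))))) := by
        gcongr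
    _ = _ := by ring

lemma exists_good_source : ∃ C : ℝ, 0 < C ∧ ∀ L : ℝ, 1 ≤ L →
    Good 3 (fun p => C * (exp (-p.1) * W L p)) (fun p => Psi (Lam L p)) := by
  obtain ⟨C, hC, hG⟩ := Good.of_hasCompactSupport (k := 3) contDiff_Psi hasCompactSupport_Psi
  refine ⟨(C + 1) * (6 * exp (49 / 4) * exp 1), by positivity, fun L hL => ?_⟩
  refine (hG.comp_clm (Lam L) (norm_Lam_le hL)).mono fun p => ?_
  by_cases hp : Lam L p ∈ tsupport Psi
  · rw [indicator_of_mem hp]
    obtain ⟨h1, h2⟩ := tsupport_Psi hp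
    simp only [Lam_apply, Metric.mem_closedBall, Real.dist_eq, dist_zero_right] at h1 h2
    rw [abs_le] at h1
    have h3 := W_ge hL (t := p.1) (by linarith only [h1, h1.1]) (by linarith only [h1, h1.2]) p.2
    have h4 : exp (-(49 / 4)) ≤ exp (-‖LamE L p.2‖ ^ 2 / 4) := by
      rw [exp_le_exp]
      have := pow_le_pow_left₀ (norm_nonneg _) h2 2
      linarith only [this]
    have h5 : exp (-1) ≤ exp (-p.1) := exp_le_exp.mpr (by linarith only [h1, h1.2])
    have h6 : exp (-1) * (1 / 6 * exp (-(49 / 4))) ≤ exp (-p.1) * W L p :=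
      mul_le_mul h5 (le_trans (by linarith only [h4]) h3) (by positivity) (exp_pos _).le
    calc C ≤ C + 1 := by linarith only []
      _ = (C + 1) * (6 * exp (49 / 4) * exp 1) * (exp (-1) * (1 / 6 * exp (-(49 / 4)))) := by
        rw [exp_neg, exp_neg]; field_simp
      _ ≤ _ := mul_le_mul_of_nonneg_left h6 (by positivity)
  · rw [indicator_of_notMem hp]
    have := W_nonneg hL p
    positivity

lemma Psi_Lam_eq_zero {p : ST} (hp : 1 ≤ p.1) : Psi (Lam L p) = 0 := by
  by_contra h
  have := (tsupport_Psi (subset_tsupport _ h)).1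
  simp only [Lam_apply, Metric.mem_closedBall, Real.dist_eq] at this
  rw [abs_le] at this
  linarith only [hp, this, this.2]

/-- Mass of the heat kernel in the unit ball. -/
noncomputable def c1 : ℝ := ∫ z, (Metric.closedBall (0 : E) 1).indicator (HK 1) z

lemma c1_pos : 0 < c1 := by
  unfold c1
  rw [integral_indicator measurableSet_closedBall,
    setIntegral_pos_iff_support_of_nonneg_ae (Eventually.of_forall (HK_nonneg 1))
      (integrable_HK one_pos).integrableOn]
  have : Function.support (HK 1) = univ := by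
    refine eq_univ_of_forall fun z => ?_
    rw [Function.mem_support, HK_eq]
    have := pi_pos
    positivity
  rw [this, univ_inter]
  exact Metric.measure_closedBall_pos _ _ one_pos

lemma Top_source_ge (hL : 1 ≤ L) {C : ℝ} (hC : 0 ≤ C)
    (hG : Good 3 (fun p => C * (exp (-p.1) * W L p)) (fun p => Psi (Lam L p))) (x : E)
    (h0 : |x 0| ≤ 2) (h1 : |x 1| ≤ 2) (h2 : |x 2| ≤ 2 * L) :
    c1 / 4 ≤ Top (fun p => Psi (Lam L p)) (1, x) := by
  have hI := ((adm_Top_exp hL).const_mul hC).integrable hG (1, x)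
  have hx : ‖LamE L x‖ ≤ 4 := by
    refine le_of_pow_le_pow_left₀ two_ne_zero (by norm_num) ?_
    rw [norm_sq_LamE]
    have a0 : x 0 ^ 2 ≤ 2 ^ 2 := by rw [← sq_abs]; gcongr
    have a1 : x 1 ^ 2 ≤ 2 ^ 2 := by rw [← sq_abs]; gcongr
    have a2 : (x 2 / L) ^ 2 ≤ 2 ^ 2 := by
      rw [← sq_abs, abs_div, abs_of_pos (show 0 < L by linarith)]
      gcongr
      rwa [div_le_iff₀ (by linarith)]
    linarith only [a0, a1, a2]
  have hprod : ∫ y, (Icc (1 / 2 : ℝ) (3 / 4)).indicator (fun _ => (1 : ℝ)) y.1 *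
      (Metric.closedBall (0 : E) 1).indicator (HK 1) y.2 ∂μ0 = c1 / 4 := by
    unfold μ0
    rw [integral_prod_mul (fun r => (Icc (1 / 2 : ℝ) (3 / 4)).indicator (fun _ => (1 : ℝ)) r)
      ((Metric.closedBall (0 : E) 1).indicator (HK 1)), setIntegral_indicator measurableSet_Icc,
      inter_eq_right.mpr (fun r hr => by have := hr.1; simp only [mem_Ioi]; linarith only [this])]
    simp only [integral_const, MeasurableSet.univ, measureReal_restrict_apply, univ_inter,
      smul_eq_mul, mul_one, c1]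
    rw [Real.volume_real_Icc_of_le (by norm_num)]
    ring
  rw [← hprod]
  refine integral_mono_of_nonneg (Eventually.of_forall fun y => ?_) hI ?_
  · exact mul_nonneg (indicator_nonneg (fun _ _ => zero_le_one) _)
      (indicator_nonneg (fun z _ => HK_nonneg 1 z) _)
  · filter_upwards [ae_pos_μ0] with y hy
    have hnn : 0 ≤ κT y * Psi (Lam L ((1, x) - aT y)) :=
      mul_nonneg (by have := HK_nonneg 1 y.2; unfold κT; positivity) (Psi_nonneg _)
    by_cases hr : y.1 ∈ Icc (1 / 2 : ℝ) (3 / 4)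
    · by_cases hz : y.2 ∈ Metric.closedBall (0 : E) 1
      · rw [indicator_of_mem hr, indicator_of_mem hz, sub_aT, Lam_apply]
        have e1 : chi (1 - y.1 ^ 2) = 1 := by
          apply chi.one_of_mem_closedBall
          simp only [chi, Metric.mem_closedBall, Real.dist_eq]
          rw [abs_le]
          constructor <;> linarith only [hy, hr, hr.1, hr.2, mul_nonneg_of_nonpos_of_nonpos (le_of_lt (Mathlib.Tactic.Linarith.sub_neg_of_lt hy)) (Mathlib.Tactic.Linarith.sub_nonpos_of_le hr.right), mul_nonneg_of_nonpos_of_nonpos (le_of_lt (Mathlib.Tactic.Linarith.sub_neg_of_lt hy)) (Mathlib.Tactic.Linarith.sub_nonpos_of_le hr.left)]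
        have e2 : psi (LamE L (x - y.1 • y.2)) = 1 := by
          apply psi.one_of_mem_closedBall
          simp only [psi, Metric.mem_closedBall, dist_zero_right, map_sub]
          have a1 := norm_LamE_le hL (y.1 • y.2)
          have a2 : ‖y.2‖ ≤ 1 := by simpa using hz
          rw [norm_smul, Real.norm_eq_abs, abs_of_pos hy] at a1
          have a3 := norm_sub_le (LamE L x) (LamE L (y.1 • y.2))
          have a4 : y.1 * ‖y.2‖ ≤ 1 := mul_le_one₀ (by linarith only [hr, hr.2]) (norm_nonneg _) a2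
          linarith only [hx, a1, a3, a4]
        simp only [Psi, κT, e1, e2]
        have := HK_nonneg 1 y.2
        linarith only [this, hr, hr.1, mul_nonneg_of_nonpos_of_nonpos (Mathlib.Tactic.Linarith.sub_nonpos_of_le this) (Mathlib.Tactic.Linarith.sub_nonpos_of_le hr.left)]
      · rw [indicator_of_notMem hz, mul_zero]; exact hnn
    · rw [indicator_of_notMem hr, zero_mul]; exact hnn

lemma integral_indicator_Icc {a b : ℝ} (h : a ≤ b) :
    ∫ s, (Icc a b).indicator (fun _ => (1 : ℝ)) s = b - a := by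
  rw [integral_indicator measurableSet_Icc]
  simp [Real.volume_real_Icc_of_le h]

lemma energy_ge (hL : 1 ≤ L) {n : E → ℝ} (hn : Continuous n) (hi : Integrable n) {C δ : ℝ}
    (h0 : ∀ y, 0 ≤ n y) (hC : ∀ y, n y ≤ C) (hδ : 0 ≤ δ)
    (hlow : ∀ x : E, |x 0| ≤ 2 → |x 1| ≤ 2 → |x 2| ≤ 2 * L → δ ≤ n x) :
    32 * L * δ ^ 2 * log ((2 + L) / 2) ≤ ∫ x, ∫ y, n x * n y / ‖x - y‖ ^ (3 - 2) := by
  have hC' : ∀ y, |n y| ≤ C := fun y => by rw [abs_of_nonneg (h0 y)]; exact hC y
  set U : E → ℝ := fun x => ∫ y, n y / ‖x - y‖ with hU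
  have hUi : ∀ x, Integrable (fun y => n y / ‖x - y‖) ∧ U x ≤ (∫ y, n y) + C * Jb 1 := by
    intro x
    have := integrable_div_norm hn hi hC' 1 (by norm_num) x
    simpa only [abs_of_nonneg (h0 _), pow_one] using this
  have hU0 : ∀ x, 0 ≤ U x := fun x => integral_nonneg fun y => by have := h0 y; positivity
  have hUm : AEStronglyMeasurable U volume := by
    refine (StronglyMeasurable.integral_prod_right (f := fun x y => n y / ‖x - y‖)
      (Measurable.stronglyMeasurable ?_)).aestronglyMeasurable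
    unfold Function.uncurry
    fun_prop
  have e : (fun x => ∫ y, n x * n y / ‖x - y‖ ^ (3 - 2)) = fun x => n x * U x := by
    funext x
    simp only [hU, ← integral_const_mul, mul_div_assoc]
    norm_num
  have hlog : ∫ s, (Icc 0 L).indicator (fun s : ℝ => 1 / (2 + s)) s = log ((2 + L) / 2) := by
    rw [integral_indicator measurableSet_Icc, integral_Icc_eq_integral_Ioc,
      ← intervalIntegral.integral_of_le (by linarith only [hL]),
      intervalIntegral.integral_comp_add_left (fun s : ℝ => 1 / s) 2,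
      integral_one_div_of_pos (by norm_num) (by linarith), add_zero]
  have hlog0 : 0 ≤ log ((2 + L) / 2) := log_nonneg (by linarith only [hL])
  have hUlow : ∀ x : E, |x 0| ≤ 1 → |x 1| ≤ 1 → |x 2| ≤ L → δ * (4 * log ((2 + L) / 2)) ≤ U x := by
    intro x a0 a1 a2
    set F : Fin 3 → ℝ → ℝ := ![(Icc (-1) 1).indicator fun _ => 1, (Icc (-1) 1).indicator fun _ => 1,
      (Icc 0 L).indicator fun s => 1 / (2 + s)] with hF
    have hint : ∫ w : E, ∏ i, F i (w i) = 4 * log ((2 + L) / 2) := by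
      rw [integral_prod3, Fin.prod_univ_three]
      simp only [hF, Matrix.cons_val_zero, Matrix.cons_val_one, Matrix.cons_val]
      rw [integral_indicator_Icc (by norm_num), hlog]
      ring
    rw [← hint, ← integral_const_mul]
    simp only [hU]
    rw [← integral_sub_left_eq_self (fun y => n y / ‖x - y‖) volume x]
    have hne : ∀ᵐ w : E, w ≠ 0 := by simp [ae_iff]
    refine integral_mono_of_nonneg (Eventually.of_forall fun w => ?_)
      ((hUi x).1.comp_sub_left x) (hne.mono fun w hw => ?_)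
    · refine mul_nonneg hδ (Finset.prod_nonneg fun i _ => ?_)
      fin_cases i
      · exact indicator_nonneg (fun _ _ => zero_le_one) _
      · exact indicator_nonneg (fun _ _ => zero_le_one) _
      · exact indicator_nonneg (s := Icc 0 L) (f := fun s : ℝ => 1 / (2 + s))
          (fun s hs => by have := hs.1; positivity) _
    · have hnn : 0 ≤ n (x - w) / ‖x - (x - w)‖ := by have := h0 (x - w); positivity
      simp only [Fin.prod_univ_three, hF, Matrix.cons_val_zero, Matrix.cons_val_one,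
        Matrix.cons_val]
      by_cases b0 : w 0 ∈ Icc (-1 : ℝ) 1
      · by_cases b1 : w 1 ∈ Icc (-1 : ℝ) 1
        · by_cases b2 : w 2 ∈ Icc (0 : ℝ) L
          · rw [indicator_of_mem b0, indicator_of_mem b1, indicator_of_mem b2, sub_sub_cancel]
            rw [abs_le] at a0 a1 a2
            have c0 := hlow (x - w)
              (by rw [PiLp.sub_apply, abs_le]; constructor <;> linarith only [a0, b0, b0.1, b0.2])
              (by rw [PiLp.sub_apply, abs_le]; constructor <;> linarith only [a1, b1, b1.1, b1.2])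
              (by rw [PiLp.sub_apply, abs_le]; constructor <;> linarith only [a2, b2, hL, b2.1, b2.2])
            have c2 : ‖w‖ ≤ 2 + w 2 := by
              refine le_of_pow_le_pow_left₀ two_ne_zero (by linarith only [b2, b2.1]) ?_
              rw [norm_sq_E]
              linarith only [b2, b0, b1, b0.1, b0.2, b1.1, b1.2, b2.1, mul_nonneg_of_nonpos_of_nonpos (Mathlib.Tactic.Linarith.sub_nonpos_of_le b0.left) (Mathlib.Tactic.Linarith.sub_nonpos_of_le b0.right), mul_nonneg_of_nonpos_of_nonpos (Mathlib.Tactic.Linarith.sub_nonpos_of_le b1.left) (Mathlib.Tactic.Linarith.sub_nonpos_of_le b1.right)]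
            have c3 : 0 < ‖w‖ := norm_pos_iff.mpr hw
            rw [one_mul, one_mul, mul_one_div]
            exact div_le_div₀ (h0 _) c0 c3 c2
          · rw [indicator_of_notMem b2]; simpa using hnn
        · rw [indicator_of_notMem b1]; simpa using hnn
      · rw [indicator_of_notMem b0]; simpa using hnn
  set G : Fin 3 → ℝ → ℝ := ![(Icc (-1) 1).indicator fun _ => 1, (Icc (-1) 1).indicator fun _ => 1,
    (Icc (-L) L).indicator fun _ => 1] with hG
  have hint : ∫ w : E, ∏ i, G i (w i) = 8 * L := by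
    rw [integral_prod3, Fin.prod_univ_three]
    simp only [hG, Matrix.cons_val_zero, Matrix.cons_val_one, Matrix.cons_val]
    rw [integral_indicator_Icc (by norm_num), integral_indicator_Icc (by linarith only [hL])]
    ring
  have hI : Integrable fun x => n x * U x :=
    hi.mul_bdd hUm (Eventually.of_forall fun x => by
      rw [Real.norm_eq_abs, abs_of_nonneg (hU0 x)]; exact (hUi x).2)
  rw [e, show 32 * L * δ ^ 2 * log ((2 + L) / 2) = δ * (δ * (4 * log ((2 + L) / 2))) * (8 * L) by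
    ring, ← hint, ← integral_const_mul]
  refine integral_mono_of_nonneg (Eventually.of_forall fun w => ?_) hI
    (Eventually.of_forall fun x => ?_)
  · refine mul_nonneg (by positivity) (Finset.prod_nonneg fun i _ => ?_)
    fin_cases i <;> exact indicator_nonneg (fun _ _ => zero_le_one) _
  · have hnn : 0 ≤ n x * U x := mul_nonneg (h0 x) (hU0 x)
    simp only [Fin.prod_univ_three, hG, Matrix.cons_val_zero, Matrix.cons_val_one,
      Matrix.cons_val]
    by_cases b0 : x 0 ∈ Icc (-1 : ℝ) 1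
    · by_cases b1 : x 1 ∈ Icc (-1 : ℝ) 1
      · by_cases b2 : x 2 ∈ Icc (-L) L
        · rw [indicator_of_mem b0, indicator_of_mem b1, indicator_of_mem b2]
          have a0 := abs_le.mpr b0
          have a1 := abs_le.mpr b1
          have a2 := abs_le.mpr b2
          simp only [mul_one]
          exact mul_le_mul (hlow x (by linarith only [a0]) (by linarith only [a1]) (by linarith only [hL, a2]))
            (hUlow x a0 a1 a2) (by positivity) (h0 x)
        · rw [indicator_of_notMem b2]; simpa using hnn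
      · rw [indicator_of_notMem b1]; simpa using hnn
    · rw [indicator_of_notMem b0]; simpa using hnn

end Pool.Agent.Work.MP_e522c7_an
end

-- merged part: Pool.Agent.Work.MP_e522c7_an.Picard
section
/-!
The fixed point, the equation it satisfies, and its positivity.
-/

namespace Pool.Agent.Work.MP_e522c7_an

open Filter Topology MeasureTheory Real Set

variable {L : ℝ}

/-- Picard iterates. -/
noncomputable def pic (h : ST → ℝ) : ℕ → ST → ℝ
  | 0 => fun _ => 0
  | m + 1 => fun p => h p + Bop (pic h m) (pic h m) p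

lemma exists_fixed (hL : 1 ≤ L) {η : ℝ} (hη : 0 ≤ η) (hη' : 8 * 7776 * η ≤ 1) {h : ST → ℝ}
    (hh : Good 3 (fun p => η * W L p) h) :
    ∃ u : ST → ℝ, Good 3 (fun p => (2 * η) * W L p) u ∧ ∀ p, u p = h p + Bop u u p := by
  have hW := W_nonneg hL
  have h1 : ∀ m, Good 3 (fun p => (2 * η) * W L p) (pic h m) := by
    intro m
    induction m with
    | zero => exact Good.zero fun p => by have := hW p; positivity
    | succ m ih =>
      refine (hh.add (good_Bop hL (by positivity) (by positivity) le_rfl ih ih)).mono fun p => ?_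
      have h2 := mul_nonneg hη (hW p)
      linarith only [h2, hη', mul_nonneg_of_nonpos_of_nonpos (Mathlib.Tactic.Linarith.sub_nonpos_of_le hη') (Mathlib.Tactic.Linarith.sub_nonpos_of_le h2)]
  have hsplit : ∀ {a b c : ℝ} {u v w : ST → ℝ}, 0 ≤ a → 0 ≤ b → 0 ≤ c →
      Good 3 (fun p => a * W L p) u → Good 3 (fun p => b * W L p) v →
      Good 3 (fun p => c * W L p) w → (∀ p, w p = u p - v p) →
      Good 3 (fun p => (7776 * c * (a + b)) * W L p) (fun p => Bop u u p - Bop v v p) := by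
    intro a b c u v w ha hb hc hu hv hw e
    have e' : w = fun p => u p - v p := funext e
    have e2 : (fun p => Bop u u p - Bop v v p) = fun p => Bop w u p + Bop v w p := by
      funext p
      rw [e', Bop_sub_left hL ha hb ha hu hv hu, Bop_sub_right hL ha hb hb hu hv hv]
      ring
    rw [e2]
    exact ((good_Bop hL hc ha le_rfl hw hu).add (good_Bop hL hb hc le_rfl hv hw)).mono
      fun p => le_of_eq (by ring)
  have h2 : ∀ m, Good 3 (fun p => (η / 2 ^ m) * W L p) (fun p => pic h (m + 1) p - pic h m p) := by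
    intro m
    induction m with
    | zero =>
      have e : (fun p => pic h (0 + 1) p - pic h 0 p) = h := by
        funext p
        simp [pic, Bop, Sop, avg]
      rw [e]; simpa using hh
    | succ m ih =>
      have := hsplit (by positivity) (by positivity) (by positivity) (h1 (m + 1)) (h1 m) ih
        (fun _ => rfl)
      have e : (fun p => pic h (m + 1 + 1) p - pic h (m + 1) p) =
          fun p => Bop (pic h (m + 1)) (pic h (m + 1)) p - Bop (pic h m) (pic h m) p := by
        funext p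
        rw [pic]
        conv_lhs => rw [pic]
        simp only [pic]
        ring
      rw [e]
      refine this.mono fun p => mul_le_mul_of_nonneg_right ?_ (hW p)
      have h3 : 0 ≤ η / 2 ^ m := by positivity
      rw [pow_succ, ← div_div]
      linarith only [hη', h3, mul_nonneg_of_nonpos_of_nonpos (Mathlib.Tactic.Linarith.sub_nonpos_of_le hη') (Mathlib.Tactic.Linarith.sub_nonpos_of_le h3)]
  have hsum : ∀ M : ℕ, HasSum (fun m => η / 2 ^ (m + M)) (2 * η / 2 ^ M) := by
    intro M
    have := hasSum_geometric_two.mul_left (η / 2 ^ M)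
    convert! this using 1
    · funext m; rw [pow_add, one_div, inv_pow]; field_simp
    · ring
  have htail : ∀ M : ℕ, Good 3 (fun p => (2 * η / 2 ^ M) * W L p)
      (fun p => ∑' m, (pic h (m + M + 1) p - pic h (m + M) p)) := by
    intro M
    have := Good.tsum (hsum M).summable (fun _ => by positivity) (W_le_one hL)
      (fun m => h2 (m + M))
    rwa [(hsum M).tsum_eq] at this
  set u : ST → ℝ := fun p => ∑' m, (pic h (m + 1) p - pic h m p) with hu
  have hu1 : Good 3 (fun p => (2 * η) * W L p) u := by simpa using htail 0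
  have hdiff : ∀ M p, (∑' m, (pic h (m + M + 1) p - pic h (m + M) p)) = u p - pic h M p := by
    intro M p
    have hs : Summable fun m => pic h (m + 1) p - pic h m p := by
      refine Summable.of_norm_bounded (by simpa using (hsum 0).summable) fun m => ?_
      exact (h2 m).bdd hL (by positivity) p
    have := hs.sum_add_tsum_nat_add M
    rw [Finset.sum_range_sub (fun m => pic h m p)] at this
    simp only [pic, sub_zero] at this
    simp only [hu, pic]
    linarith
  refine ⟨u, hu1, fun p => ?_⟩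
  have hb : ∀ M : ℕ, |u p - (h p + Bop u u p)| ≤ (2 * η + 7776 * (2 * η) * (4 * η)) / 2 ^ M := by
    intro M
    have a1 := (htail (M + 1)).bdd hL (by positivity) p
    have a2 := (hsplit (by positivity) (by positivity) (by positivity) hu1 (h1 M) (htail M)
      (hdiff M)).bdd hL (by positivity) p
    rw [hdiff] at a1
    have e : u p - (h p + Bop u u p) =
        (u p - pic h (M + 1) p) - (Bop u u p - Bop (pic h M) (pic h M) p) := by
      simp only [pic]; ring
    rw [e]
    refine (abs_sub _ _).trans ?_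
    have a3 : 2 * η / 2 ^ (M + 1) ≤ 2 * η / 2 ^ M :=
      div_le_div_of_nonneg_left (by positivity) (by positivity)
        (pow_le_pow_right₀ (by norm_num) (Nat.le_succ M))
    have a4 : 7776 * (2 * η / 2 ^ M) * (2 * η + 2 * η) = 7776 * (2 * η) * (4 * η) / 2 ^ M := by
      ring
    rw [add_div]
    linarith only [a1, a2, a3, a4]
  have hlim : Tendsto (fun M : ℕ => (2 * η + 7776 * (2 * η) * (4 * η)) / 2 ^ M) atTop (𝓝 0) :=
    tendsto_const_nhds.div_atTop (tendsto_pow_atTop_atTop_of_one_lt one_lt_two)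
  have := ge_of_tendsto' hlim hb
  exact sub_eq_zero.mp (abs_nonpos_iff.mp this)

lemma pde_of_fixed (hL : 1 ≤ L) {a b : ℝ} (ha : 0 ≤ a) (hb : 0 ≤ b) {u g : ST → ℝ}
    (hu : Good 3 (fun p => a * W L p) u) (hg : Good 3 (fun p => b * W L p) g)
    (hfix : ∀ p, u p = Top g p + Bop u u p) (p : ST) :
    D et u p = ∑ i, D (ex i) (D (ex i) u) p - ∑ i, Kop i u p * D (ex i) u p + u p ^ 2 + g p := by
  have hc : 0 ≤ 2 ^ 3 * 18 * a * a := by positivity
  have hf := fun i => good_flux hL ha hu hu i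
  have hf' := fun i => ((hf i).mono (om_W_le hL hc)).dir (norm_ex i)
  set F : ST → ℝ := fun q => g q - ∑ i, D (ex i) (fun q => u q * Kop i u q) q with hF
  have hFg : Good 2 (fun p => (b + 3 * (2 ^ 3 * 18 * a * a)) * W L p) F :=
    (hg.of_succ.sub (Good.sum Finset.univ fun i _ => hf' i)).mono fun p => le_of_eq (by
      simp only [Finset.card_univ, Fintype.card_fin, Nat.cast_ofNat]; ring)
  obtain ⟨B', hB'⟩ := adm_Top hL
  have hT : u = Top F := by
    funext q
    rw [hfix q, Bop]
    simp only [fun i => Sop_eq_neg_Top hL hc (hf i) i q, Top, avg, hF, mul_sub, Finset.mul_sum]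
    rw [integral_sub ((hB'.const_mul hb).integrable hg q)
      (integrable_finsetSum _ fun i _ => (hB'.const_mul hc).integrable (hf' i) q),
      integral_finsetSum _ fun i _ => (hB'.const_mul hc).integrable (hf' i) q]
    simp [sub_eq_add_neg]
  have h1 := heat_Top hL (by positivity) hFg p
  rw [← hT] at h1
  have h2 := div_Kop hL ha hu p
  have h3 : ∀ i, D (ex i) (fun q => u q * Kop i u q) p =
      u p * D (ex i) (Kop i u) p + D (ex i) u p * Kop i u p := fun i =>
    congrFun (Good.D_mul hu.1 (good_Kop hL ha hu i).1 (ex i)) p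
  rw [h1]
  simp only [hF, h3, Fin.sum_univ_three] at h2 ⊢
  have h4 : u p ^ 2 = -(u p * (D (ex 0) (Kop 0 u) p + D (ex 1) (Kop 1 u) p +
    D (ex 2) (Kop 2 u) p)) := by rw [h2]; ring
  rw [h4]; ring

lemma second_deriv_nonneg {φ φ' : ℝ → ℝ} {c : ℝ} (h1 : ∀ s, HasDerivAt φ (φ' s) s)
    (h2 : HasDerivAt φ' c 0) (hmin : ∀ s, φ 0 ≤ φ s) : φ' 0 = 0 ∧ 0 ≤ c := by
  have h0 : φ' 0 = 0 := (IsLocalMin.hasDerivAt_eq_zero (Eventually.of_forall hmin) (h1 0))
  refine ⟨h0, ?_⟩
  by_contra hc
  push Not at hc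
  have hd : deriv φ = φ' := funext fun s => (h1 s).deriv
  have hmax : IsLocalMax φ 0 := isLocalMax_of_deriv_deriv_neg (by rw [hd, h2.deriv]; exact hc)
    (by rw [hd, h0]) (h1 0).continuousAt
  have hev : φ =ᶠ[𝓝 0] fun _ => φ 0 := hmax.mono fun s hs => le_antisymm hs (hmin s)
  have h3 : φ' =ᶠ[𝓝 0] fun _ => 0 := by
    have := hev.deriv
    rw [hd] at this
    simpa using this
  have h4 := (h2.congr_of_eventuallyEq h3.symm).unique (hasDerivAt_const (0 : ℝ) (0 : ℝ))
  linarith

lemma hasDerivAt_line {f : ST → ℝ} (hf : Differentiable ℝ f) (p v : ST) (s : ℝ) :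
    HasDerivAt (fun s : ℝ => f (p + s • v)) (D v f (p + s • v)) s := by
  have h1 : HasDerivAt (fun s : ℝ => p + s • v) v s := by
    simpa using ((hasDerivAt_id s).smul_const v).const_add p
  exact (hf _).hasFDerivAt.comp_hasDerivAt s h1

lemma nonneg_of_pde (hL : 1 ≤ L) {a : ℝ} (ha : a ≤ 1) {u g : ST → ℝ} {b : Fin 3 → ST → ℝ}
    (hu : Good 2 (fun p => a * W L p) u) (hg : ∀ p, 0 ≤ g p)
    (hpde : ∀ p, D et u p =
      ∑ i, D (ex i) (D (ex i) u) p - ∑ i, b i p * D (ex i) u p + u p ^ 2 + g p)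
    {T : ℝ} (hT : 0 ≤ T) (x0 : E) : 0 ≤ u (T, x0) := by
  by_contra hneg
  push Not at hneg
  set m := u (T, x0) with hm
  have huc := hu.continuous
  have hzero : ∀ x, u (0, x) = 0 := by
    intro x
    have h1 : Tendsto (fun t : ℝ => u (t, x)) (𝓝[<] 0) (𝓝 (u (0, x))) :=
      tendsto_nhdsWithin_of_tendsto_nhds (Continuous.tendsto (by fun_prop) 0)
    have h2 : Tendsto (fun t : ℝ => u (t, x)) (𝓝[<] 0) (𝓝 0) := by
      refine tendsto_const_nhds.congr' ?_
      filter_upwards [self_mem_nhdsWithin] with t ht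
      have := hu.bound (t, x)
      rw [W_of_neg (p := (t, x)) ht, mul_zero] at this
      exact (abs_nonpos_iff.mp this).symm
    exact tendsto_nhds_unique h1 h2
  set A := L ^ 2 + 2 * T with hA
  have hA0 : 0 < A := by positivity
  obtain ⟨R, hR0, hR⟩ : ∃ R : ℝ, ‖x0‖ ≤ R ∧ ∀ s, R < s → exp (-s ^ 2 / (4 * A)) < -m := by
    have h1 : Tendsto (fun s : ℝ => exp (-s ^ 2 / (4 * A))) atTop (𝓝 0) := by
      refine tendsto_exp_atBot.comp (Tendsto.atBot_div_const (by positivity) ?_)
      exact tendsto_neg_atTop_atBot.comp (tendsto_pow_atTop two_ne_zero)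
    obtain ⟨R, hR⟩ := eventually_atTop.mp (h1.eventually (gt_mem_nhds (show 0 < -m by linarith)))
    exact ⟨max R ‖x0‖, le_max_right _ _, fun s hs => hR s ((le_max_left _ _).trans hs.le)⟩
  have hK : IsCompact (Icc (0 : ℝ) T ×ˢ Metric.closedBall (0 : E) R) :=
    isCompact_Icc.prod (isCompact_closedBall _ _)
  obtain ⟨⟨t1, x1⟩, ⟨ht1, hx1⟩, hmin⟩ := hK.exists_isMinOn
    ⟨(T, x0), ⟨by simpa using hT, by simpa using hR0⟩⟩ huc.continuousOn
  have hle : u (t1, x1) ≤ m := 
    hmin (show (T, x0) ∈ _ from ⟨by simpa using hT, by simpa using hR0⟩)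
  have hglob : ∀ t ∈ Icc (0 : ℝ) T, ∀ x, u (t1, x1) ≤ u (t, x) := by
    intro t ht x
    by_cases hx : ‖x‖ ≤ R
    · exact hmin (show (t, x) ∈ _ from ⟨ht, by simpa using hx⟩)
    · have h1 := hR _ (not_le.mp hx)
      have h2 := W_le_exp hL ht.1 x (A := A) (by linarith only [ht, ht.2])
      have h3 : (1 + 2 * t)⁻¹ ≤ 1 := inv_le_one_of_one_le₀ (by linarith only [ht, ht.1])
      have h4 := mul_le_of_le_one_left (exp_pos (-‖x‖ ^ 2 / (4 * A))).le h3
      have h5 := hu.bound (t, x)
      have h6 := mul_le_of_le_one_left (W_nonneg hL (t, x)) ha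
      have h7 := neg_abs_le (u (t, x))
      linarith only [hle, h1, h2, h4, h5, h6, h7]
  have ht0 : 0 < t1 := by
    rcases ht1.1.eq_or_lt with h | h
    · simp only at h; rw [← h, hzero] at hle; linarith
    · exact h
  have hx : ∀ i, D (ex i) u (t1, x1) = 0 ∧ 0 ≤ D (ex i) (D (ex i) u) (t1, x1) := by
    intro i
    have := second_deriv_nonneg (hasDerivAt_line hu.1 (t1, x1) (ex i))
      (hasDerivAt_line (hu.dir (norm_ex i)).1 (t1, x1) (ex i) 0) fun s => by
        simp only [zero_smul, add_zero, ex, Prod.smul_mk, smul_zero, Prod.mk_add_mk]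
        exact hglob t1 ht1 _
    simpa using this
  have ht : D et u (t1, x1) ≤ 0 := by
    have h1 := hasDerivAt_line hu.1 (t1, x1) et 0
    simp only [zero_smul, add_zero] at h1
    have h2 := (hasDerivAt_iff_tendsto_slope_zero.mp h1).mono_left
      (nhdsWithin_mono (0 : ℝ) (show Iio (0 : ℝ) ⊆ {0}ᶜ from fun s hs => ne_of_lt hs))
    refine le_of_tendsto h2 ?_
    filter_upwards [Ioo_mem_nhdsLT (show -t1 < 0 by linarith)] with s hs
    simp only [zero_add, zero_smul, add_zero, smul_eq_mul, et, Prod.smul_mk, smul_zero,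
      Prod.mk_add_mk, mul_one]
    have h3 := hglob (t1 + s) ⟨by linarith [hs.1], by linarith [hs.2, ht1.2]⟩ x1
    exact mul_nonpos_of_nonpos_of_nonneg (inv_nonpos.mpr hs.2.le) (by linarith)
  have h := hpde (t1, x1)
  simp only [Fin.sum_univ_three, (hx _).1, mul_zero, add_zero, sub_zero] at h
  have h0 := (hx 0).2
  have h1 := (hx 1).2
  have h2 := (hx 2).2
  have h3 := hg (t1, x1)
  have h4 : 0 < u (t1, x1) ^ 2 := by
    have : u (t1, x1) < 0 := by linarith
    linarith only [ht, h, h0, h1, h2, h3, hneg, hle, mul_pos_of_neg_of_neg (Mathlib.Tactic.Linarith.sub_neg_of_lt hneg) (Mathlib.Tactic.Linarith.sub_neg_of_lt hneg), mul_nonneg_of_nonpos_of_nonpos (le_of_lt (Mathlib.Tactic.Linarith.sub_neg_of_lt hneg)) (Mathlib.Tactic.Linarith.sub_nonpos_of_le hle), mul_nonneg_of_nonpos_of_nonpos (Mathlib.Tactic.Linarith.sub_nonpos_of_le hle) (Mathlib.Tactic.Linarith.sub_nonpos_of_le hle)]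
  linarith

end Pool.Agent.Work.MP_e522c7_an
end

-- merged part: Pool.Agent.Work.MP_e522c7_an.Main
section
/-!
A global solution of the three-dimensional Keller-Segel system with initially decreasing second
moment.
-/

namespace Pool.Agent.Work.MP_e522c7_an

open Filter Topology MeasureTheory Real Set

lemma exists_solution : ∃ (L : ℝ) (u g : ST → ℝ), 1 ≤ L ∧ Good 3 (fun p => 1 * W L p) u ∧
    (∀ t, 0 ≤ t → ∀ x, 0 ≤ u (t, x)) ∧
    2 * 3 * (∫ x, u (1, x)) * sig < ∫ x, ∫ y, u (1, x) * u (1, y) / ‖x - y‖ ^ (3 - 2) ∧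
    (∀ p : ST, 1 ≤ p.1 → g p = 0) ∧
    ∀ p, D et u p =
      ∑ i, D (ex i) (D (ex i) u) p - ∑ i, Kop i u p * D (ex i) u p + u p ^ 2 + g p := by
  obtain ⟨C, hC, hG⟩ := exists_good_source
  have hc1 := c1_pos
  obtain ⟨ε, hε, hε1, hε2⟩ : ∃ ε : ℝ, 0 < ε ∧ 8 * 7776 * (9 * C * ε) ≤ 1 ∧
      7776 * (18 * C) ^ 2 * ε ≤ c1 / 8 := by
    refine ⟨min (1 / (8 * 7776 * (9 * C))) (c1 / 8 / (7776 * (18 * C) ^ 2)), by positivity, ?_, ?_⟩
    · have := min_le_left (1 / (8 * 7776 * (9 * C))) (c1 / 8 / (7776 * (18 * C) ^ 2))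
      rw [le_div_iff₀ (by positivity)] at this
      linarith only [this]
    · have := min_le_right (1 / (8 * 7776 * (9 * C))) (c1 / 8 / (7776 * (18 * C) ^ 2))
      rw [le_div_iff₀ (by positivity)] at this
      linarith only [this]
  set η := 9 * C * ε with hη
  have hη0 : 0 < η := by positivity
  set δ := ε * c1 / 8 with hδ
  have hδ0 : 0 < δ := by positivity
  set X := 6 * sig * (2 * η * √(4 * π) ^ 3) / (32 * δ ^ 2) with hX
  set L := 2 * exp (|X| + 1) with hLdef
  have hL : 1 ≤ L := by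
    have := add_one_le_exp (|X| + 1)
    have := abs_nonneg X
    linarith
  have hlog : X < log ((2 + L) / 2) := by
    rw [lt_log_iff_exp_lt (by linarith only [hε1, hη0, hL])]
    have h1 : exp X ≤ exp (|X| + 1) := exp_le_exp.mpr (by linarith only [hε1, hη0, le_abs_self X])
    linarith only [hε1, hη0, h1]
  have hW := W_nonneg hL
  set g : ST → ℝ := fun p => ε * Psi (Lam L p) with hg
  have hg1 : Good 3 (fun p => (ε * C) * (exp (-p.1) * W L p)) g :=
    ((hG L hL).const_mul ε).mono fun p => le_of_eq (by rw [abs_of_pos hε]; ring)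
  have hg2 : Good 3 (fun p => (ε * C) * W L p) g := hg1.mono fun p => by
    refine mul_le_mul_of_nonneg_left ?_ (by positivity)
    by_cases hp : 0 ≤ p.1
    · exact mul_le_of_le_one_left (hW p) (exp_le_one_iff.mpr (by linarith only [hp]))
    · rw [W_of_neg (not_le.mp hp)]; simp
  have hh : Good 3 (fun p => η * W L p) (Top g) :=
    (((adm_Top_exp hL).const_mul (show 0 ≤ ε * C by positivity)).good hg1).mono
      fun p => le_of_eq (by rw [hη]; ring)
  obtain ⟨u, hu, hfix⟩ := exists_fixed hL hη0.le hε1 hh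
  have hpde := pde_of_fixed hL (by positivity) (by positivity) hu hg2 hfix
  have hη1 : 2 * η ≤ 1 := by linarith only [hε1, hη0]
  have hu1 : Good 3 (fun p => 1 * W L p) u :=
    hu.mono fun p => mul_le_mul_of_nonneg_right hη1 (hW p)
  have hpos' : ∀ t, 0 ≤ t → ∀ x, 0 ≤ u (t, x) := fun t ht => nonneg_of_pde hL hη1 hu.of_succ
    (fun p => mul_nonneg hε.le (Psi_nonneg _)) hpde ht
  have hpos := hpos' 1 zero_le_one
  refine ⟨L, u, g, hL, hu1, hpos', ?_, fun p hp => by simp [hg, Psi_Lam_eq_zero hp], hpde⟩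
  have huc := hu.continuous
  have hlow : ∀ x : E, |x 0| ≤ 2 → |x 1| ≤ 2 → |x 2| ≤ 2 * L → δ ≤ u (1, x) := by
    intro x h0 h1 h2
    have a1 := Top_source_ge hL hC.le (hG L hL) x h0 h1 h2
    have a2 : Top g (1, x) = ε * Top (fun p => Psi (Lam L p)) (1, x) := by
      simp only [Top, avg, hg, ← integral_const_mul]
      congr 1; funext y; ring
    have a3 := (good_Bop hL (by positivity) (by positivity) le_rfl hu hu).bdd hL
      (by positivity) (1, x)
    have a4 : 7776 * (2 * η) * (2 * η) ≤ ε * (c1 / 8) := by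
      have := mul_le_mul_of_nonneg_left hε2 hε.le
      rw [hη]; linarith only [this]
    have a5 := mul_le_mul_of_nonneg_left a1 hε.le
    have a6 := neg_abs_le (Bop u u (1, x))
    rw [hfix, a2, hδ]
    linarith only [a3, a4, a5, a6]
  have hE := energy_ge hL (n := fun x => u (1, x)) (by fun_prop)
    (hu.integrable_slice hL zero_le_one) hpos
    (fun y => (le_abs_self _).trans (hu1.bdd hL zero_le_one (1, y))) hδ0.le hlow
  refine lt_of_lt_of_le ?_ hE
  have hM : ∫ x, u (1, x) ≤ 2 * η * (L * √(4 * π) ^ 3) := by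
    rw [← integral_W hL zero_le_one, ← integral_const_mul]
    exact integral_mono (hu.integrable_slice hL zero_le_one)
      ((integrable_W hL zero_le_one).const_mul _) fun x => (le_abs_self _).trans (hu.bound (1, x))
  have hs := sig_pos
  rw [hX, div_lt_iff₀ (by positivity)] at hlog
  calc 2 * 3 * (∫ x, u (1, x)) * sig ≤ 2 * 3 * (2 * η * (L * √(4 * π) ^ 3)) * sig := by gcongr
    _ = L * (6 * sig * (2 * η * √(4 * π) ^ 3)) := by ring
    _ < L * (log ((2 + L) / 2) * (32 * δ ^ 2)) := by gcongr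
    _ = _ := by ring

lemma fderiv_space {f : ST → ℝ} (hf : Differentiable ℝ f) (t : ℝ) (x v : E) :
    fderiv ℝ (fun y : E => f (t, y)) x v = ∑ i, v i * D (ex i) f (t, x) := by
  have h1 : HasFDerivAt (fun y : E => ((t, y) : ST))
      ((0 : E →L[ℝ] ℝ).prod (ContinuousLinearMap.id ℝ E)) x :=
    (hasFDerivAt_const t x).prodMk (hasFDerivAt_id x)
  have h2 := (hf (t, x)).hasFDerivAt.comp x h1
  rw [show (fun y : E => f (t, y)) = f ∘ fun y : E => ((t, y) : ST) from rfl, h2.fderiv]
  simp only [ContinuousLinearMap.comp_apply, ContinuousLinearMap.prod_apply, zero_apply,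
    ContinuousLinearMap.id_apply]
  rw [fderiv_decomp]
  simp

lemma fderiv_space_single {f : ST → ℝ} (hf : Differentiable ℝ f) (t : ℝ) (x : E) (i : Fin 3) :
    fderiv ℝ (fun y : E => f (t, y)) x (eE i) = D (ex i) f (t, x) := by
  rw [fderiv_space hf]
  fin_cases i <;> simp [eE]

lemma iteratedFDeriv_space {B f : ST → ℝ} (hf : Good 2 B f) (t : ℝ) (x : E) (i : Fin 3) :
    iteratedFDeriv ℝ 2 (fun y : E => f (t, y)) x ![eE i, eE i] =
      D (ex i) (D (ex i) f) (t, x) := by
  have hc : ContDiff ℝ 2 (fun y : E => f (t, y)) :=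
    hf.contDiff.comp (contDiff_const.prodMk contDiff_id)
  have hd : DifferentiableAt ℝ (fderiv ℝ (fun y : E => f (t, y))) x :=
    ((hc.fderiv_right (m := 1) (by norm_num)).differentiable (by norm_num)) x
  rw [iteratedFDeriv_two_apply, ← fderiv_space_single (hf.dir (norm_ex i)).1]
  simp only [← fderiv_space_single hf.1]
  rw [fderiv_clm_apply hd (differentiableAt_const _)]
  simp

lemma deriv_time {f : ST → ℝ} (hf : Differentiable ℝ f) (t : ℝ) (x : E) :
    deriv (fun s => f (s + 1, x)) t = D et f (t + 1, x) := by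
  have h := hasDerivAt_line hf (1, x) et t
  have e : ∀ s : ℝ, ((1, x) : ST) + s • et = (s + 1, x) := by
    intro s; ext <;> simp [et, add_comm]
  simp only [e] at h
  exact h.deriv

end Pool.Agent.Work.MP_e522c7_an
end
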